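import Pool.Agent.Work.MP_37ce0f_lc.B.Defs

namespace Pool.Agent.Work.MP_37ce0f_lc.B

def crR (a b : ℝ × ℝ) : ℝ := a.1 * b.2 - a.2 * b.1

def CwR (a b c : ℝ × ℝ) : Prop :=
  (crR a b < 0 ∧ crR b c < 0) ∨ (crR b c < 0 ∧ crR c a < 0) ∨ (crR c a < 0 ∧ crR a b < 0)

/-- the closed chain `0, e false, y false, a, y true, e true` -/
def Hex (y e : Bool → ℝ × ℝ) (a : ℝ × ℝ) : Set (ℝ × ℝ) :=
  {w | ∃ b, w ∈ segment ℝ 0 (e b) ∨ w ∈ segment ℝ (e b) (y b) ∨ w ∈ segment ℝ (y b) a}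

/-- `g` increases along the direct path from `0` to `y b` -/
def Dir (g : ℝ × ℝ →ₗ[ℝ] ℝ) (y e : Bool → ℝ × ℝ) (b : Bool) : Prop :=
  0 < g (e b) ∧ g (e b) < g (y b)

/-- `g` increases along the path from `0` round the triangle to `y b` -/
def Ind (g : ℝ × ℝ →ₗ[ℝ] ℝ) (y e : Bool → ℝ × ℝ) (a : ℝ × ℝ) (b : Bool) : Prop :=
  Dir g y e (!b) ∧ g (y (!b)) < g a ∧ g a < g (y b)

/-- `k` nested hexagons through `0` with leaf vectors `d` -/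
structure Sys (k : ℕ) (B : ℝ) where
  y : ℕ → Bool → ℝ × ℝ
  d : ℕ → Bool → ℝ × ℝ
  e : ℕ → Bool → ℝ × ℝ
  a : ℕ → ℝ × ℝ
  sep : ∀ i j b c, i < k → j < k → i ≠ j → ∃ g : ℝ × ℝ →ₗ[ℝ] ℝ, g (y i b) < 0 ∧ g (d i b) < 0 ∧
    0 < g (d j c) ∧ (Dir g (y j) (e j) c ∨ Ind g (y j) (e j) (a j) c)
  disj : ∀ i j, i < k → j < k → i ≠ j → ∀ w, w ∈ Hex (y i) (e i) (a i) →
    w ∈ Hex (y j) (e j) (a j) → w = 0
  no0 : ∀ i, i < k → ∀ b, (0 : ℝ × ℝ) ∉ segment ℝ (e i b) (y i b) ∧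
    (0 : ℝ × ℝ) ∉ segment ℝ (y i b) (a i)
  enc : ∀ i j, i < j → j < k → ∀ w, w ≠ 0 → (w ∈ Hex (y i) (e i) (a i) ∨ ∃ b, w = y i b + d i b) →
    ∃ s : ℝ, 1 ≤ s ∧ s • w ∈ Hex (y j) (e j) (a j)
  latd : ∀ i j b c, crR (d i b) (d j c) = 0 ∨ 1 ≤ |crR (d i b) (d j c)|
  laty : ∀ i j b c, crR (y i b) (y j c) = 0 ∨ 1 ≤ |crR (y i b) (y j c)|
  box : ∀ i j b c, i < k → j < k → |crR (y i b) (y j c)| ≤ B

/-- `(0, ζ)` is the highest point of hexagon `j` on the axis; it lies on the segment from the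
vertex `y j c` to the bend `β`; ties at `a j` are broken in favour of the outer segment -/
def Sys.Pk {k : ℕ} {B : ℝ} (S : Sys k B) (j : ℕ) (c : Bool) (β : ℝ × ℝ) (ζ : ℝ) : Prop :=
  1 ≤ ζ ∧ ((0 : ℝ), ζ) ∈ segment ℝ (S.y j c) β ∧
  (∀ s : ℝ, ((0 : ℝ), s) ∈ Hex (S.y j) (S.e j) (S.a j) → s ≤ ζ) ∧
  (β = S.e j c ∨ (β = S.a j ∧ ((S.a j).1 = 0 → 0 < (S.y j c).1 * (S.y j (!c)).1 →
    ((S.y j (!c)).2 - ζ) * |(S.y j c).1| ≤ ((S.y j c).2 - ζ) * |(S.y j (!c)).1|)))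

end Pool.Agent.Work.MP_37ce0f_lc.B
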