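import Pool.Agent.Work.MP_37ce0f_lc.A.Count
import Pool.Agent.Work.MP_37ce0f_lc.B.Sys

namespace Pool.Agent.Work.MP_37ce0f_lc.B

theorem cnt_lin (g : ℝ × ℝ →ₗ[ℝ] ℝ) (q : ℝ × ℝ) : g q = q.1 * g (1, 0) + q.2 * g (0, 1) := by
  have e : q = q.1 • ((1 : ℝ), (0 : ℝ)) + q.2 • ((0 : ℝ), (1 : ℝ)) := by ext <;> simp
  conv_lhs => rw [e]
  rw [map_add, map_smul, map_smul, smul_eq_mul, smul_eq_mul]

theorem cnt_mid {a b x y z : ℝ} (h1 : a + b * x < 0) (h2 : a + b * z < 0) (h3 : 0 < a + b * y)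
    (h : (x ≤ y ∧ y ≤ z) ∨ (z ≤ y ∧ y ≤ x)) : False := by
  rcases le_total 0 b with hb | hb <;> rcases h with h | h
  · linarith [mul_le_mul_of_nonneg_left h.2 hb]
  · linarith [mul_le_mul_of_nonneg_left h.2 hb]
  · linarith [mul_le_mul_of_nonpos_left h.1 hb]
  · linarith [mul_le_mul_of_nonpos_left h.1 hb]

theorem cnt_abs (M : ℕ) (B : ℝ) (p c u v : ℕ → ℝ)
    (h1 : ∀ i, i ≤ M → 1 ≤ p i ∧ p i ≤ B) (hc : ∀ i, i ≤ M → 0 < c i)
    (hk : ∀ i j, i < j → j ≤ M → p i + c i ≤ p j)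
    (sep : ∀ i j, i ≤ M → j ≤ M → i ≠ j → ∃ a b : ℝ,
      a + b * u i < 0 ∧ a + b * v i < 0 ∧ 0 < a + b * u j ∧ 0 < a + b * v j)
    (lat : ∀ i j, i ≤ M → j ≤ M → v i = v j ∨ 1 ≤ c i * c j * |v i - v j|)
    (box : ∀ i, i ≤ M → |u i| * (p i * p M) ≤ B) : (M : ℝ) ^ 3 ≤ 10 ^ 21 * B := by
  classical
  have hM := h1 M le_rfl
  have pM : 0 < p M := by linarith [hM.1]
  have B0 : 0 < B := by linarith [hM.1, hM.2]
  have tel : ∀ i b, i + b ≤ M → p i + ∑ l ∈ Finset.Ico i (i + b), c l ≤ p (i + b) := by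
    intro i b
    induction b with
    | zero => intro _; simp
    | succ b ih =>
      intro hb
      have k1 := ih (by omega)
      have k2 := hk (i + b) (i + (b + 1)) (by omega) hb
      rw [← add_assoc, Finset.sum_Ico_succ_top (by omega)]
      rw [← add_assoc] at k2
      linarith
  have key := A.outer (fun l => B * p l / p M) M
    (fun l hl => by
      rw [one_le_div pM]
      nlinarith [(h1 l hl).1, hM.2])
    (fun i b m hib hm hs => by
      have pi := (h1 i (by omega)).1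
      have pb := (h1 (i + b) hib).1
      have pi0 : 0 < p i := by linarith
      have hs' : p (i + b) ≤ 101 / 100 * p i := by
        have e : 101 / 100 * (B * p i / p M) = B * (101 / 100 * p i) / p M := by ring
        rw [e, div_le_div_iff_of_pos_right pM] at hs
        exact le_of_mul_le_mul_left hs B0
      obtain ⟨ρ, hρ⟩ : ∃ ρ, ρ = B / (p i * p M) := ⟨_, rfl⟩
      have ρ0 : 0 < ρ := by rw [hρ]; positivity
      have mem : ∀ l ∈ Finset.Ico i (i + b), l ≤ M ∧ -ρ ≤ u l ∧ u l ≤ ρ := fun l hl => by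
        obtain ⟨l1, l2⟩ := Finset.mem_Ico.1 hl
        refine ⟨by omega, abs_le.1 ?_⟩
        have k1 : p i ≤ p l := by
          rcases l1.eq_or_lt with rfl | l1
          · exact le_rfl
          · linarith [hk i l l1 (by omega), hc i (by omega)]
        rw [hρ, le_div_iff₀ (by positivity)]
        exact (mul_le_mul_of_nonneg_left (mul_le_mul_of_nonneg_right k1 pM.le)
          (abs_nonneg _)).trans (box l (by omega))
      have up : ((Finset.Ico i (i + b)).filter fun l => ρ < v l).card ≤ 1 := by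
        refine Finset.card_le_one.2 fun l hl l' hl' => ?_
        obtain ⟨a1, a2⟩ := Finset.mem_filter.1 hl
        obtain ⟨a3, a4⟩ := Finset.mem_filter.1 hl'
        by_contra hne
        have m1 := mem l a1
        have m2 := mem l' a3
        rcases le_total (u l) (u l') with g | g
        · obtain ⟨a, b, s1, s2, s3, -⟩ := sep l l' m1.1 m2.1 hne
          exact cnt_mid s1 s2 s3 (Or.inl ⟨g, by linarith [m2.2.2]⟩)
        · obtain ⟨a, b, s1, s2, s3, -⟩ := sep l' l m2.1 m1.1 (Ne.symm hne)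
          exact cnt_mid s1 s2 s3 (Or.inl ⟨g, by linarith [m1.2.2]⟩)
      have dn : ((Finset.Ico i (i + b)).filter fun l => v l < -ρ).card ≤ 1 := by
        refine Finset.card_le_one.2 fun l hl l' hl' => ?_
        obtain ⟨a1, a2⟩ := Finset.mem_filter.1 hl
        obtain ⟨a3, a4⟩ := Finset.mem_filter.1 hl'
        by_contra hne
        have m1 := mem l a1
        have m2 := mem l' a3
        rcases le_total (u l') (u l) with g | g
        · obtain ⟨a, b, s1, s2, s3, -⟩ := sep l l' m1.1 m2.1 hne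
          exact cnt_mid s1 s2 s3 (Or.inr ⟨by linarith [m2.2.1], g⟩)
        · obtain ⟨a, b, s1, s2, s3, -⟩ := sep l' l m2.1 m1.1 (Ne.symm hne)
          exact cnt_mid s1 s2 s3 (Or.inr ⟨by linarith [m1.2.1], g⟩)
      obtain ⟨T, hT⟩ : ∃ T, T = (Finset.Ico i (i + b)).filter fun l => -ρ ≤ v l ∧ v l ≤ ρ :=
        ⟨_, rfl⟩
      have sub : Finset.Ico i (i + b) ⊆ (T ∪ (Finset.Ico i (i + b)).filter fun l => ρ < v l) ∪
          (Finset.Ico i (i + b)).filter fun l => v l < -ρ := fun l hl => by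
        simp only [hT, Finset.mem_union, Finset.mem_filter]
        by_cases g1 : ρ < v l
        · exact Or.inl (Or.inr ⟨hl, g1⟩)
        by_cases g2 : v l < -ρ
        · exact Or.inr ⟨hl, g2⟩
        exact Or.inl (Or.inl ⟨hl, not_lt.1 g2, not_lt.1 g1⟩)
      have c1 := (Finset.card_le_card sub).trans ((Finset.card_union_le _ _).trans
        (Nat.add_le_add_right (Finset.card_union_le _ _) _))
      rw [Nat.card_Ico] at c1
      have hT' : ∀ l ∈ T, l ∈ Finset.Ico i (i + b) ∧ -ρ ≤ v l ∧ v l ≤ ρ := fun l hl => by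
        rw [hT] at hl; exact Finset.mem_filter.1 hl
      have cn := A.count T c (fun l => v l + ρ) (S := 1) (R := 2 * ρ) (m := m) (by omega) one_pos
        (fun l hl => hc l (mem l (hT' l hl).1).1)
        (fun l hl => ⟨by linarith [(hT' l hl).2.1], by linarith [(hT' l hl).2.2]⟩)
        (fun l hl l' hl' hne => by
          have m1 := (mem l (hT' l hl).1).1
          have m2 := (mem l' (hT' l' hl').1).1
          rw [one_mul, add_sub_add_right_eq_sub]
          refine (lat l l' m1 m2).resolve_left fun e => ?_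
          obtain ⟨a, b, -, s2, -, s4⟩ := sep l l' m1 m2 hne
          rw [e] at s2
          linarith)
      have s1 : ∑ l ∈ T, c l ≤ ∑ l ∈ Finset.Ico i (i + b), c l :=
        Finset.sum_le_sum_of_subset_of_nonneg (fun l hl => (hT' l hl).1)
          (fun l hl _ => (hc l (mem l hl).1).le)
      have s2 : (∑ l ∈ T, c l) ^ 2 ≤ p (i + b) ^ 2 :=
        pow_le_pow_left₀ (Finset.sum_nonneg fun l hl => (hc l (mem l (hT' l hl).1).1).le)
          (by linarith [tel i b hib]) 2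
      have s3 : p (i + b) ^ 2 ≤ 101 / 100 * p i * p (i + b) := by
        rw [sq]; exact mul_le_mul_of_nonneg_right hs' (by linarith)
      have s4 := cn.trans (mul_le_mul_of_nonneg_left (s2.trans s3) (by positivity))
      have e : 1 * (2 * ρ) * (101 / 100 * p i * p (i + b)) =
          101 / 50 * (B * p (i + b) / p M) := by rw [hρ]; field_simp; ring
      have s5 : 0 ≤ B * p (i + b) / p M := by positivity
      rw [e] at s4
      show (m : ℝ) ^ 3 ≤ 10 ^ 5 * (B * p (i + b) / p M)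
      linarith)
  have e : B * p M / p M = B := by field_simp
  simpa only [e] using key

theorem cnt_sl (g : ℝ × ℝ →ₗ[ℝ] ℝ) (k : ℝ) {q : ℝ × ℝ} (hq : 0 < q.1) :
    g q = q.1 * (g (1, 0) + g (0, 1) * k + g (0, 1) * (q.2 / q.1 - k)) := by
  rw [cnt_lin g q]; field_simp; ring

theorem cnt_cr (k : ℝ) {q r : ℝ × ℝ} (hq : 0 < q.1) (hr : 0 < r.1) :
    |crR q r| = q.1 * r.1 * |q.2 / q.1 - k - (r.2 / r.1 - k)| := by
  rw [← abs_of_pos (mul_pos hq hr), ← abs_mul, ← abs_neg (crR q r)]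
  congr 1
  unfold crR; field_simp; ring

theorem cnt_core (M : ℕ) (B : ℝ) (y d : ℕ → ℝ × ℝ)
    (h1 : ∀ i, i ≤ M → 1 ≤ (y i).1 ∧ (y i).1 ≤ B) (hd : ∀ i, i ≤ M → 0 < (d i).1)
    (hk : ∀ i j, i < j → j ≤ M → (y i).1 + (d i).1 ≤ (y j).1)
    (sep : ∀ i j, i ≤ M → j ≤ M → i ≠ j → ∃ g : ℝ × ℝ →ₗ[ℝ] ℝ,
      g (y i) < 0 ∧ g (d i) < 0 ∧ 0 < g (y j) ∧ 0 < g (d j))
    (lat : ∀ i j, crR (d i) (d j) = 0 ∨ 1 ≤ |crR (d i) (d j)|)
    (box : ∀ i j, i ≤ M → j ≤ M → |crR (y i) (y j)| ≤ B) : (M : ℝ) ^ 3 ≤ 10 ^ 21 * B := by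
  have hy : ∀ i, i ≤ M → 0 < (y i).1 := fun i hi => by linarith [(h1 i hi).1]
  obtain ⟨k, hk'⟩ : ∃ k, k = (y M).2 / (y M).1 := ⟨_, rfl⟩
  refine cnt_abs M B (fun l => (y l).1) (fun l => (d l).1) (fun l => (y l).2 / (y l).1 - k)
    (fun l => (d l).2 / (d l).1 - k) h1 hd hk (fun i j hi hj hij => ?_) (fun i j hi hj => ?_)
    (fun i hi => ?_)
  · obtain ⟨g, s1, s2, s3, s4⟩ := sep i j hi hj hij
    rw [cnt_sl g k (hy i hi)] at s1
    rw [cnt_sl g k (hd i hi)] at s2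
    rw [cnt_sl g k (hy j hj)] at s3
    rw [cnt_sl g k (hd j hj)] at s4
    exact ⟨g (1, 0) + g (0, 1) * k, g (0, 1),
      not_le.1 fun t => s1.not_ge (mul_nonneg (hy i hi).le t),
      not_le.1 fun t => s2.not_ge (mul_nonneg (hd i hi).le t),
      (mul_pos_iff_of_pos_left (hy j hj)).1 s3, (mul_pos_iff_of_pos_left (hd j hj)).1 s4⟩
  · have e := cnt_cr k (hd i hi) (hd j hj)
    rcases lat i j with g | g
    · left
      rw [g, abs_zero] at e
      have := (mul_eq_zero.1 e.symm).resolve_left (mul_pos (hd i hi) (hd j hj)).ne'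
      exact sub_eq_zero.1 (abs_eq_zero.1 this)
    · right
      rwa [e] at g
  · have e := cnt_cr k (hy i hi) (hy M le_rfl)
    have b := box i M hi le_rfl
    rw [e, ← hk', sub_self, sub_zero, mul_comm] at b
    exact b

theorem cnt_down {y d : ℝ × ℝ} (hy : 0 < y.1) (hd : d.1 ≤ 0) (g : ℝ × ℝ →ₗ[ℝ] ℝ)
    (h1 : 0 < g y) (h2 : 0 < g d) : 0 < (y.1 * d.2 - d.1 * y.2) * g (0, 1) := by
  have e : (y.1 * d.2 - d.1 * y.2) * g (0, 1) = y.1 * g d - d.1 * g y := by
    rw [cnt_lin g y, cnt_lin g d]; ring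
  rw [e]
  linarith [mul_pos hy h2, mul_nonneg (neg_nonneg.2 hd) h1.le]

/-- Hint. At most one `i` has `(d i).1 ≤ 0`: then `(y i).1 • d i - (d i).1 • y i` is vertical,
downward by `sep0`, and two such contradict `sep`. Drop this index (reindex `0 .. M - 1`). With
`Y` the last `y`, `ht q = q.2 - q.1 * Y.2 / Y.1` (so `|ht (y l)| ≤ B / Y.1` and
`crR q q' = q.1 * ht q' - ht q * q'.1`) and slope `ht q / q.1`. Apply `A.outer` to
`s l = B * (y l).1 / Y.1`. In a block `i ≤ l < i + b`: the slopes of the `y l` lie in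
`[-ρ, ρ]`, `ρ = B / (Y.1 * (y i).1)`; if the slope of `d l` is above all slopes of the block's
`y`, the steepest `y l'` is in the cone of `y l`, `d l`, so `l = l'` by `sep`; same below. For the
other `l` use `A.count` with `S = 1`, `c l = (d l).1`, `τ l` = slope `+ ρ`, `R = 2 ρ`;
`∑ c l ≤ (y (i + b)).1` by telescoping; `crR (d l) (d l') ≠ 0` by `sep`. -/
theorem chain_bound (M : ℕ) (B : ℝ) (y d : ℕ → ℝ × ℝ)
    (h1 : ∀ i, i ≤ M → 1 ≤ (y i).1 ∧ (y i).1 ≤ B)
    (hk : ∀ i j, i < j → j ≤ M → (y i).1 + (d i).1 ≤ (y j).1)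
    (sep : ∀ i j, i ≤ M → j ≤ M → i ≠ j → ∃ g : ℝ × ℝ →ₗ[ℝ] ℝ,
      g (y i) < 0 ∧ g (d i) < 0 ∧ 0 < g (y j) ∧ 0 < g (d j))
    (sep0 : ∀ i, i ≤ M → ∃ g : ℝ × ℝ →ₗ[ℝ] ℝ, g (0, 1) < 0 ∧ 0 < g (y i) ∧ 0 < g (d i))
    (lat : ∀ i j, crR (d i) (d j) = 0 ∨ 1 ≤ |crR (d i) (d j)|)
    (box : ∀ i j, i ≤ M → j ≤ M → |crR (y i) (y j)| ≤ B) :
    ((M - 1 : ℕ) : ℝ) ^ 3 ≤ 10 ^ 21 * B := by
  have hy : ∀ i, i ≤ M → 0 < (y i).1 := fun i hi => by linarith [(h1 i hi).1]
  have B0 : 0 < B := by linarith [(h1 M le_rfl).1, (h1 M le_rfl).2]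
  have neg : ∀ i, i ≤ M → (d i).1 ≤ 0 → (y i).1 * (d i).2 - (d i).1 * (y i).2 < 0 :=
    fun i hi hd => by
      obtain ⟨g, s1, s2, s3⟩ := sep0 i hi
      have := cnt_down (hy i hi) hd g s2 s3
      by_contra hn
      linarith [mul_nonneg (not_lt.1 hn) (neg_nonneg.2 s1.le)]
  have one : ∀ i j, i ≤ M → j ≤ M → i ≠ j → (d i).1 ≤ 0 → 0 < (d j).1 := fun i j hi hj hij di => by
    by_contra hn
    have dj := not_lt.1 hn
    obtain ⟨g, s1, s2, s3, s4⟩ := sep i j hi hj hij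
    have k1 := cnt_down (hy i hi) di (-g) (by simpa using s1) (by simpa using s2)
    have k2 := cnt_down (hy j hj) dj g s3 s4
    have n1 := neg i hi di
    have n2 := neg j hj dj
    rw [LinearMap.neg_apply] at k1
    rcases le_total 0 (g (0, 1)) with t | t
    · linarith [mul_nonneg (neg_nonneg.2 n2.le) t]
    · linarith [mul_nonneg (neg_nonneg.2 n1.le) (neg_nonneg.2 t)]
  rcases Nat.eq_zero_or_pos M with rfl | hM
  · simp only [Nat.zero_sub, Nat.cast_zero, ne_eq, OfNat.ofNat_ne_zero, not_false_eq_true,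
      zero_pow]
    positivity
  obtain ⟨i0, hi0⟩ : ∃ i0, ∀ j, j ≤ M → j ≠ i0 → 0 < (d j).1 := by
    by_cases h : ∃ i, i ≤ M ∧ (d i).1 ≤ 0
    · obtain ⟨i, hi, di⟩ := h
      exact ⟨i, fun j hj hji => one i j hi hj hji.symm di⟩
    · exact ⟨0, fun j hj _ => not_le.1 fun dj => h ⟨j, hj, dj⟩⟩
  obtain ⟨f, f1, f2, f3⟩ : ∃ f : ℕ → ℕ, (∀ i j, i < j → f i < f j) ∧ (∀ i, f i ≤ i + 1) ∧
      ∀ i, f i ≠ i0 := by
    refine ⟨fun i => if i < i0 then i else i + 1, fun i j hij => ?_, fun i => ?_, fun i => ?_⟩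
    · dsimp only; split_ifs <;> omega
    · dsimp only; split_ifs <;> omega
    · dsimp only; split_ifs <;> omega
  have f4 : ∀ i, i ≤ M - 1 → f i ≤ M := fun i hi => by have := f2 i; omega
  exact cnt_core (M - 1) B (fun i => y (f i)) (fun i => d (f i)) (fun i hi => h1 _ (f4 i hi))
    (fun i hi => hi0 _ (f4 i hi) (f3 i)) (fun i j hij hj => hk _ _ (f1 i j hij) (f4 j hj))
    (fun i j hi hj hij => sep _ _ (f4 i hi) (f4 j hj) (by
      rcases lt_or_gt_of_ne hij with g | g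
      · exact (f1 i j g).ne
      · exact (f1 j i g).ne'))
    (fun i j => lat _ _) (fun i j hi hj => box _ _ (f4 i hi) (f4 j hj))

end Pool.Agent.Work.MP_37ce0f_lc.B
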