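import Pool.Agent.Work.MP_37ce0f_lc.B.Defs

namespace Pool.Agent.Work.MP_37ce0f_lc.B
open Finset

variable {V : Type} {G : SimpleGraph V}

/-- the contour of a spanning tree `T`: the darts are numbered `0 .. N-1` -/
structure Ctr (E : PlaneEmb G) where
  N : ℕ
  ps : G.Dart → ℕ
  T : G.Dart → Prop
  inj : Function.Injective ps
  lt : ∀ d, ps d < N
  sur : ∀ t, t < N → ∃ d, ps d = t
  out : ps E.out = 0
  symm : ∀ d, T d.symm ↔ T d
  nextT : ∀ d, T d → ps (E.σ d.symm) = (ps d + 1) % N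
  nextN : ∀ d, ¬ T d → ps (E.σ d) = (ps d + 1) % N
  ncT : ∀ a c, T a → T c → ps a < ps c → ps c < ps a.symm → ps a.symm < ps c.symm → False
  ncN : ∀ a c, ¬ T a → ¬ T c → ps a < ps c → ps c < ps a.symm → ps a.symm < ps c.symm → False

variable [Fintype V] {E : PlaneEmb G}

open Classical in
/-- the tree edges (as downward darts, parent to child) that are open at time `t` -/
noncomputable def Ctr.opn (K : Ctr E) (t : ℕ) : Finset G.Dart :=
  univ.filter fun d => K.T d ∧ K.ps d < t ∧ t ≤ K.ps d.symm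

theorem Ctr.mem_opn (K : Ctr E) {t : ℕ} {d : G.Dart} :
    d ∈ K.opn t ↔ K.T d ∧ K.ps d < t ∧ t ≤ K.ps d.symm := by
  simp [Ctr.opn]

open Classical in
/-- the end of the time interval of a dart that is drawn upwards -/
noncomputable def Ctr.hi (K : Ctr E) (d : G.Dart) : ℕ :=
  if K.T d then K.ps d.symm + 1 else K.ps d + 1

/-- darts whose first segment goes upwards -/
def Ctr.Up (K : Ctr E) (d : G.Dart) : Prop := ¬ K.T d ∨ K.ps d < K.ps d.symm

/-- slopes and vectors -/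
structure Geo (E : PlaneEmb G) extends Ctr E where
  θ : ℕ → ℝ
  vec : G.Dart → ℤ × ℤ
  θ0 : ∀ t, 0 ≤ θ t
  θ1 : ∀ t, θ t ≤ 1
  mono : Monotone θ
  cone : ∀ d, toCtr.Up d → 0 < (vec d).2 ∧ θ (ps d) * (vec d).2 < (vec d).1 ∧
    ((vec d).1 : ℝ) < θ (toCtr.hi d) * (vec d).2
  ht : ∀ t, (∑ d ∈ toCtr.opn t, vec d).2 ≤ N
  top : ∀ e, ¬ T e → (∑ d ∈ toCtr.opn (ps e), vec d).2 + (vec e).2 =
    N + |(ps e : ℤ) - ps e.symm|
  pos : V → ℤ × ℤ
  pos_eq : ∀ e : G.Dart, pos e.fst = ∑ d ∈ toCtr.opn (ps e), vec d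
  all : ∀ v, ∃ e : G.Dart, e.fst = v

open Classical in
/-- the drawing -/
noncomputable def Geo.draw (K : Geo E) : Drawing V where
  pos := K.pos
  bends u v := if h : G.Adj u v then (if K.T ⟨(u, v), h⟩ then [] else
    [K.pos u + K.vec ⟨(u, v), h⟩, K.pos v + K.vec ⟨(v, u), h.symm⟩]) else []
  symm u v := by
    by_cases h : G.Adj u v
    · have e : K.T ⟨(v, u), h.symm⟩ ↔ K.T ⟨(u, v), h⟩ := K.symm ⟨(u, v), h⟩
      by_cases t : K.T ⟨(u, v), h⟩
      · simp only [dif_pos h, dif_pos h.symm, if_pos t, if_pos (e.2 t), List.reverse_nil]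
      · simp only [dif_pos h, dif_pos h.symm, if_neg t, if_neg (mt e.1 t)]
        rfl
    · simp only [dif_neg h, dif_neg (mt SimpleGraph.Adj.symm h), List.reverse_nil]

theorem Geo.bendsT (K : Geo E) {d : G.Dart} (h : K.T d) : K.draw.bends d.fst d.snd = [] := by
  have h' : K.T ⟨(d.fst, d.snd), d.adj⟩ := h
  simp only [Geo.draw, dif_pos d.adj, if_pos h']

theorem Geo.bendsN (K : Geo E) {d : G.Dart} (h : ¬ K.T d) : K.draw.bends d.fst d.snd =
    [K.pos d.fst + K.vec d, K.pos d.snd + K.vec d.symm] := by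
  have h' : ¬ K.T ⟨(d.fst, d.snd), d.adj⟩ := h
  simp only [Geo.draw, dif_pos d.adj, if_neg h']
  rfl

/-- the functional `x - c y` -/
def fn (c : ℝ) (p : ℝ × ℝ) : ℝ := p.1 - c * p.2

end Pool.Agent.Work.MP_37ce0f_lc.B
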