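import Pool.Agent.Work.MP_37ce0f_lc.B.Defs

namespace Pool.Agent.Work.MP_37ce0f_lc.B

variable {V : Type} [Fintype V] {G : SimpleGraph V}

theorem card_dart : Nat.card G.Dart = 2 * Nat.card G.edgeSet := by
  classical
  rw [Nat.card_eq_fintype_card, Nat.card_eq_fintype_card, G.dart_card_eq_twice_card_edges,
    SimpleGraph.card_edgeSet]

/-- A permutation without cycles of length at most two has at most a third as many cycles as
points. -/
theorem edges_three_mul_cyc {X : Type} [Finite X] (f : Equiv.Perm X) (h1 : ∀ x, f x ≠ x)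
    (h2 : ∀ x, f (f x) ≠ x) : 3 * cyc f ≤ Nat.card X := by
  have hinj : Function.Injective
      (fun p : Fin 3 × Quotient (Equiv.Perm.SameCycle.setoid f) => (f ^ (p.1 : ℕ)) p.2.out) := by
    rintro ⟨i, a⟩ ⟨j, b⟩ h
    simp only at h
    have hab : a = b := by
      have h0 : f.SameCycle ((f ^ (i : ℕ)) a.out) ((f ^ (j : ℕ)) b.out) := by
        rw [h]
      rw [Equiv.Perm.sameCycle_pow_left, Equiv.Perm.sameCycle_pow_right] at h0
      rw [← Quotient.out_eq a, ← Quotient.out_eq b]
      exact Quotient.sound h0
    subst hab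
    have k1 := h1 a.out
    have k2 := h2 a.out
    have hij : i = j := by
      fin_cases i <;> fin_cases j <;> simp [pow_two] at h ⊢ <;>
        first
          | exact k1 h
          | exact k1 h.symm
          | exact k2 h
          | exact k2 h.symm
    rw [hij]
  have := Nat.card_le_card_of_injective _ hinj
  simpa [Nat.card_prod, cyc] using this

omit [Fintype V] in
theorem edges_fst (E : PlaneEmb G) (d : G.Dart) : ((E.σ * rev G) d).fst = d.snd := by
  have h : E.σ.SameCycle d.symm (E.σ d.symm) :=
    Equiv.Perm.sameCycle_apply_right.2 (Equiv.Perm.SameCycle.refl _ _)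
  exact ((E.rot _ _).1 h).symm

omit [Fintype V] in
theorem edges_two (hG : G.Connected) (E : PlaneEmb G) (d : G.Dart) (h1 : E.σ d = d)
    (h2 : E.σ d.symm = d.symm) (e : G.Dart) : e = d ∨ e = d.symm := by
  have k1 : ∀ e : G.Dart, e.fst = d.fst → e = d := fun e he =>
    (((E.rot d e).2 he.symm).eq_of_left h1).symm
  have k2 : ∀ e : G.Dart, e.fst = d.snd → e = d.symm := fun e he =>
    (((E.rot d.symm e).2 he.symm).eq_of_left h2).symm
  have key : ∀ {x y : V} (_ : G.Walk x y), (x = d.fst ∨ x = d.snd) → (y = d.fst ∨ y = d.snd) := by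
    intro x y p
    induction p with
    | nil => exact id
    | @cons u v w h _ ih =>
      intro hu
      apply ih
      rcases hu with hu | hu
      · have := k1 ⟨(u, v), h⟩ hu
        right
        rw [← this]
      · have := k2 ⟨(u, v), h⟩ hu
        left
        exact congrArg (fun z : G.Dart => z.snd) this
  obtain ⟨p⟩ := hG.preconnected d.fst e.fst
  rcases key p (Or.inl rfl) with h | h
  · exact Or.inl (k1 e h)
  · exact Or.inr (k2 e h)

/-- Hint: `φ = σ * rev`. `φ d = d` is impossible (`(φ d).fst = d.snd`). If `φ (φ d) = d` then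
`φ d = d.symm`, so `σ` fixes `d` and `d.symm`, both ends have one dart, and by connectivity there
are only these two darts (bound: `2 ≤ 6 n`). Otherwise every cycle of `φ` has at least 3 darts,
`3 F ≤ 2 E`, and Euler gives `E ≤ 3 n`. -/
theorem dart_le (hG : G.Connected) (E : PlaneEmb G) : Nat.card G.Dart ≤ 6 * Fintype.card V := by
  classical
  have h1 : ∀ d, (E.σ * rev G) d ≠ d := fun d h => by
    have := edges_fst E d
    rw [h] at this
    exact d.adj.ne this
  by_cases h2 : ∀ d, (E.σ * rev G) ((E.σ * rev G) d) ≠ d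
  · have h3 := edges_three_mul_cyc _ h1 h2
    have h4 := E.euler
    have h5 := card_dart (G := G)
    rw [Nat.card_eq_fintype_card (α := V)] at h4
    omega
  · push Not at h2
    obtain ⟨d, hd⟩ := h2
    have a1 := edges_fst E d
    have a2 := edges_fst E ((E.σ * rev G) d)
    rw [hd] at a2
    have a3 : (E.σ * rev G) d = d.symm := by
      apply SimpleGraph.Dart.ext
      exact Prod.ext a1 a2.symm
    rw [a3] at hd
    have b1 : E.σ d = d := hd
    have b2 : E.σ d.symm = d.symm := a3
    have hs : Function.Surjective (fun b : Bool => if b then d else d.symm) := by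
      intro e
      rcases edges_two hG E d b1 b2 e with h | h
      · exact ⟨true, by simp [h]⟩
      · exact ⟨false, by simp [h]⟩
    have c1 := Nat.card_le_card_of_surjective _ hs
    have c2 : 0 < Fintype.card V := Fintype.card_pos_iff.2 ⟨d.fst⟩
    rw [Nat.card_eq_fintype_card (α := Bool), Fintype.card_bool] at c1
    omega

theorem exists_dart (hG : G.Connected) (E : PlaneEmb G) (v : V) : ∃ d : G.Dart, d.fst = v := by
  have key : ∀ {x y : V} (_ : G.Walk x y), y = E.out.fst → ∃ d : G.Dart, d.fst = x := by
    intro x y p hy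
    cases p with
    | nil => exact ⟨E.out, hy.symm⟩
    | cons h _ => exact ⟨⟨(x, _), h⟩, rfl⟩
  obtain ⟨p⟩ := hG.preconnected v E.out.fst
  exact key p rfl

end Pool.Agent.Work.MP_37ce0f_lc.B
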