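import Pool.Agent.Work.MP_37ce0f_lc.B.Perm
import Pool.Agent.Work.MP_37ce0f_lc.B.Edges
import Pool.Agent.Work.MP_37ce0f_lc.B.Ctr

namespace Pool.Agent.Work.MP_37ce0f_lc.B
open Equiv Equiv.Perm

variable {V : Type} [Fintype V] {G : SimpleGraph V}

/-- a largest good invariant set joins every point to its partner -/
theorem contour_max {X : Type} [Fintype X] [DecidableEq X] (σ α : Perm X)
    (hα : ∀ x, α (α x) = x) (hf : ∀ x, α x ≠ x) :
    ∃ (A : Finset X) (hA : ∀ x, α x ∈ A ↔ x ∈ A),
      (∀ x y, σ.SameCycle x y → (σ * part α hα A hA).SameCycle x y) ∧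
      (∀ d, (σ * part α hα A hA).SameCycle d (α d)) ∧
      2 * cyc (σ * part α hα A hA) + A.card ≤ 2 * cyc σ := by
  classical
  let P : Finset X → Prop := fun A => ∃ hA : ∀ x, α x ∈ A ↔ x ∈ A,
    (∀ x y, σ.SameCycle x y → (σ * part α hα A hA).SameCycle x y) ∧
    (∀ d ∈ A, (σ * part α hα A hA).SameCycle d (α d)) ∧
    2 * cyc (σ * part α hα A hA) + A.card ≤ 2 * cyc σ
  have h0 : P ∅ := by
    have hA : ∀ x, α x ∈ (∅ : Finset X) ↔ x ∈ (∅ : Finset X) := fun x => by simp
    have e : σ * part α hα ∅ hA = σ := by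
      ext x
      simp [part_apply]
    refine ⟨hA, ?_, ?_, ?_⟩
    · rw [e]
      exact fun _ _ h => h
    · intro d hd
      simp at hd
    · rw [e]
      simp
  obtain ⟨A, hAm, hmax⟩ := Finset.exists_max_image (Finset.univ.filter P) Finset.card
    ⟨∅, by simpa using h0⟩
  obtain ⟨hA, h1, h2, h3⟩ : P A := (Finset.mem_filter.1 hAm).2
  refine ⟨A, hA, h1, fun d => ?_, h3⟩
  by_contra hd
  have dA : d ∉ A := fun h => hd (h2 d h)
  have dA' : α d ∉ A := fun h => dA ((hA d).1 h)
  have hB : ∀ x, α x ∈ insert d (insert (α d) A) ↔ x ∈ insert d (insert (α d) A) := by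
    intro x
    simp only [Finset.mem_insert, hA x]
    constructor
    · rintro (h | h | h)
      · exact Or.inr (Or.inl (by rw [← h, hα]))
      · exact Or.inl (α.injective h)
      · exact Or.inr (Or.inr h)
    · rintro (h | h | h)
      · exact Or.inr (Or.inl (by rw [h]))
      · exact Or.inl (by rw [h, hα])
      · exact Or.inr (Or.inr h)
  have e : σ * part α hα _ hB = σ * part α hα A hA * swap d (α d) := by
    ext x
    simp only [Perm.mul_apply, part_apply, Finset.mem_insert]
    by_cases x1 : x = d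
    · subst x1
      simp [dA']
    · by_cases x2 : x = α d
      · subst x2
        simp [dA, hα]
      · rw [swap_apply_of_ne_of_ne x1 x2]
        simp [x1, x2]
  obtain ⟨m1, m2, m3⟩ := cyc_merge (σ * part α hα A hA) hd
  have hc : (insert d (insert (α d) A)).card = A.card + 2 := by
    rw [Finset.card_insert_of_notMem, Finset.card_insert_of_notMem dA']
    simp only [Finset.mem_insert, not_or]
    exact ⟨fun h => hf d h.symm, dA⟩
  have hP : P (insert d (insert (α d) A)) := by
    refine ⟨hB, ?_, ?_, ?_⟩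
    · rw [e]
      exact fun x y h => m2 x y (h1 x y h)
    · rw [e]
      intro x hx
      simp only [Finset.mem_insert] at hx
      rcases hx with h | h | h
      · rw [h]
        exact m1
      · rw [h, hα]
        exact m1.symm
      · exact m2 _ _ (h2 x h)
    · rw [e, hc]
      omega
  have := hmax _ (Finset.mem_filter.2 ⟨Finset.mem_univ _, hP⟩)
  omega

/-- numbering of the points along a permutation with one cycle -/
theorem contour_num {X : Type} [Fintype X] (τ : Perm X) (o : X)
    (h : ∀ x, τ.SameCycle o x) :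
    ∃ ps : X → ℕ, Function.Injective ps ∧ (∀ x, ps x < Nat.card X) ∧
      (∀ t, t < Nat.card X → ∃ x, ps x = t) ∧ ps o = 0 ∧
      ∀ x, ps (τ x) = (ps x + 1) % Nat.card X := by
  classical
  have hpos : 0 < Function.minimalPeriod τ o :=
    Function.minimalPeriod_pos_of_mem_periodicPts (τ.injective.mem_periodicPts o)
  have hex : ∀ x, ∃ t, t < Function.minimalPeriod τ o ∧ τ^[t] o = x := by
    intro x
    obtain ⟨i, -, hi⟩ := (h x).exists_pow_eq'
    refine ⟨i % Function.minimalPeriod τ o, Nat.mod_lt _ hpos, ?_⟩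
    rw [Function.iterate_mod_minimalPeriod_eq, ← hi]
    rfl
  choose ps h1 h2 using hex
  have huniq : ∀ x t, t < Function.minimalPeriod τ o → τ^[t] o = x → ps x = t := by
    intro x t ht hx
    exact (Function.iterate_eq_iterate_iff_of_lt_minimalPeriod (h1 x) ht).1 ((h2 x).trans hx.symm)
  have hinj : Function.Injective ps := by
    intro x y hxy
    rw [← h2 x, hxy, h2 y]
  have hN : Nat.card X = Function.minimalPeriod τ o := by
    have hb : Function.Bijective
        (fun x => (⟨ps x, h1 x⟩ : Fin (Function.minimalPeriod τ o))) := by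
      refine ⟨fun x y hxy => hinj (congrArg Fin.val hxy), fun t => ⟨τ^[t] o, ?_⟩⟩
      exact Fin.ext (huniq _ _ t.2 rfl)
    rw [Nat.card_eq_of_bijective _ hb]
    simp
  rw [hN]
  refine ⟨ps, hinj, h1, fun t ht => ⟨τ^[t] o, huniq _ _ ht rfl⟩, huniq _ _ hpos rfl, fun x => ?_⟩
  refine huniq _ _ (Nat.mod_lt _ hpos) ?_
  rw [Function.iterate_mod_minimalPeriod_eq, Function.iterate_succ_apply', h2]

/-- the cycles of `σ` are the vertices (`E.rot`, `exists_dart`) -/
theorem cyc_rot (hG : G.Connected) (E : PlaneEmb G) : cyc E.σ = Nat.card V := by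
  unfold cyc
  refine Nat.card_eq_of_bijective
    (Quotient.lift (s := Equiv.Perm.SameCycle.setoid E.σ) (fun d : G.Dart => d.fst)
      (fun d e h => (E.rot d e).1 h)) ⟨?_, ?_⟩
  · intro a b
    induction a using Quotient.inductionOn
    induction b using Quotient.inductionOn
    intro h
    exact Quotient.sound ((E.rot _ _).2 h)
  · intro v
    obtain ⟨d, hd⟩ := exists_dart hG E v
    exact ⟨Quotient.mk _ d, hd⟩

omit [Fintype V] in
/-- a relation on darts that joins darts at one vertex and reversed darts joins all darts -/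
theorem contour_conn (hG : G.Connected) (τ : Perm G.Dart)
    (h1 : ∀ d e : G.Dart, d.fst = e.fst → τ.SameCycle d e)
    (h2 : ∀ d : G.Dart, τ.SameCycle d d.symm) (d e : G.Dart) : τ.SameCycle d e := by
  have key : ∀ u v, G.Walk u v → ∀ d e : G.Dart, d.fst = u → e.fst = v → τ.SameCycle d e := by
    intro u v p
    induction p with
    | nil => exact fun d e hd he => h1 d e (hd.trans he.symm)
    | @cons a b c hab p ih =>
      intro d e hd he
      exact (h1 d ⟨(a, b), hab⟩ hd).trans ((h2 _).trans (ih _ e rfl he))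
  obtain ⟨p⟩ := hG.preconnected d.fst e.fst
  exact key _ _ p d e rfl rfl

/-- The contour of a spanning tree, from a largest good set of darts. -/
theorem exists_ctr (hG : G.Connected) (E : PlaneEmb G) : ∃ K : Ctr E, K.N = Nat.card G.Dart := by
  classical
  have hα : ∀ x, rev G (rev G x) = x := fun _ => rfl
  have hf : ∀ x, rev G x ≠ x := fun x => x.symm_ne
  obtain ⟨A, hA, h1, h2, h3⟩ := contour_max E.σ (rev G) hα hf
  have hall : ∀ d e, (E.σ * part (rev G) hα A hA).SameCycle d e :=
    contour_conn hG _ (fun d e h => h1 d e ((E.rot d e).2 h)) h2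
  obtain ⟨ps, pinj, plt, psur, p0, pnx⟩ := contour_num _ E.out (hall E.out)
  have hone : cyc (E.σ * part (rev G) hα A hA) ≤ 1 := by
    unfold cyc
    refine Finite.card_le_one_iff_subsingleton.2 ⟨fun a b => ?_⟩
    induction a using Quotient.inductionOn
    induction b using Quotient.inductionOn
    exact Quotient.sound (hall _ _)
  have hC : ∀ x, rev G x ∈ Aᶜ ↔ x ∈ Aᶜ := fun x => by simp only [Finset.mem_compl, hA x]
  have e1 : E.σ * part (rev G) hα A hA * part (rev G) hα A hA = E.σ := by
    refine Equiv.ext fun x => ?_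
    simp only [Perm.mul_apply, part_apply]
    by_cases hx : x ∈ A
    · rw [if_pos hx, if_pos ((hA x).2 hx), hα]
    · rw [if_neg hx, if_neg hx]
  have e2 : E.σ * part (rev G) hα A hA * part (rev G) hα Aᶜ hC = E.σ * rev G := by
    refine Equiv.ext fun x => ?_
    simp only [Perm.mul_apply, part_apply, Finset.mem_compl]
    by_cases hx : x ∈ A
    · rw [if_neg (not_not.2 hx), if_pos hx]
    · rw [if_pos hx, if_neg (fun h => hx ((hA x).1 h))]
  have c1 : A.card ≤ 2 * cyc (E.σ * part (rev G) hα A hA * part (rev G) hα A hA) := by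
    rw [e1]
    omega
  have c2 : Aᶜ.card ≤ 2 * cyc (E.σ * part (rev G) hα A hA * part (rev G) hα Aᶜ hC) := by
    have a1 := cyc_part_le (E.σ * part (rev G) hα A hA) (rev G) hα hf A hA
    rw [e1, cyc_rot hG E] at a1
    have a2 := E.euler
    have a3 := card_dart (G := G)
    have a4 := Finset.card_add_card_compl A
    rw [← Nat.card_eq_fintype_card] at a4
    rw [e2]
    omega
  refine ⟨⟨Nat.card G.Dart, ps, fun d => d ∈ A, pinj, plt, psur, p0, fun d => hA d, ?_, ?_, ?_, ?_⟩,
    rfl⟩
  · intro d hd
    rw [← pnx d, Perm.mul_apply, part_apply, if_pos hd]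
    rfl
  · intro d hd
    rw [← pnx d, Perm.mul_apply, part_apply, if_neg hd]
  · intro a c ha hc l1 l2 l3
    exact noncross _ (rev G) hα hf A hA ps _ pinj plt psur pnx c1 ha hc l1 l2 l3
  · intro a c ha hc l1 l2 l3
    exact noncross _ (rev G) hα hf Aᶜ hC ps _ pinj plt psur pnx c2 (Finset.mem_compl.2 ha)
      (Finset.mem_compl.2 hc) l1 l2 l3

end Pool.Agent.Work.MP_37ce0f_lc.B
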