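import Mathlib

namespace Pool.Agent.Work.MP_37ce0f_lc.B

/-- Grid data: a grid point for each vertex and, for each ordered pair, the list of bends met
when going from the first vertex to the second (only used for edges). -/
structure Drawing (V : Type) where
  pos : V → ℤ × ℤ
  bends : V → V → List (ℤ × ℤ)
  symm : ∀ u v, bends v u = (bends u v).reverse

variable {V : Type}

/-- The polygonal chain of the edge `uv`, from `u` to `v`. -/
def Drawing.chain (D : Drawing V) (u v : V) : List (ℤ × ℤ) :=
  D.pos u :: (D.bends u v ++ [D.pos v])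

/-- The segments (start, end) of that chain, in order from `u` to `v`. -/
def Drawing.segs (D : Drawing V) (u v : V) : List ((ℤ × ℤ) × (ℤ × ℤ)) :=
  (D.chain u v).zip (D.chain u v).tail

/-- A grid point as a point of the plane. -/
def toR (p : ℤ × ℤ) : ℝ × ℝ := ((p.1 : ℝ), (p.2 : ℝ))

/-- The closed straight segment between two grid points. -/
def seg (s : (ℤ × ℤ) × (ℤ × ℤ)) : Set (ℝ × ℝ) := segment ℝ (toR s.1) (toR s.2)

/-- The set of points of the plane covered by the edge `uv`. -/
def Drawing.trace (D : Drawing V) (u v : V) : Set (ℝ × ℝ) := {p | ∃ s ∈ D.segs u v, p ∈ seg s}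

/-- The direction in which the edge `uv` leaves `u`. -/
def Drawing.dir (D : Drawing V) (u v : V) : ℤ × ℤ := (D.bends u v).headD (D.pos v) - D.pos u

/-- Planarity: distinct vertices get distinct points; every edge is a simple chain (no
degenerate segment, two segments meet only if the earlier ends where the later starts, and only
there); an edge passes through no vertex except its ends; two different edges meet only in
vertices (hence only in common ends). -/
def Planar (G : SimpleGraph V) (D : Drawing V) : Prop :=
  Function.Injective D.pos ∧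
  (∀ u v, G.Adj u v → (∀ s ∈ D.segs u v, s.1 ≠ s.2) ∧
    (D.segs u v).Pairwise (fun s t => ∀ p ∈ seg s, p ∈ seg t → s.2 = t.1 ∧ p = toR s.2)) ∧
  (∀ u v w, G.Adj u v → toR (D.pos w) ∈ D.trace u v → w = u ∨ w = v) ∧
  (∀ u v x y, G.Adj u v → G.Adj x y → s(u, v) ≠ s(x, y) →
    ∀ p ∈ D.trace u v, p ∈ D.trace x y → ∃ w, p = toR (D.pos w))

/-- Monotone drawing: any two vertices are joined by a path of the graph such that some vector
has positive scalar product with every segment of the drawn path, oriented from `u` to `v`. -/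
def IsMono (G : SimpleGraph V) (D : Drawing V) : Prop :=
  ∀ u v, ∃ p : G.Walk u v, p.IsPath ∧ ∃ d : ℝ × ℝ, ∀ e ∈ p.darts, ∀ s ∈ D.segs e.fst e.snd,
    0 < d.1 * ((s.2.1 : ℝ) - s.1.1) + d.2 * ((s.2.2 : ℝ) - s.1.2)

/-- All vertices and all bends of edges lie in an axis-parallel box of width `W`, height `H`. -/
def InBox (G : SimpleGraph V) (D : Drawing V) (W H : ℕ) : Prop :=
  ∃ x₀ y₀ : ℤ, ∀ p : ℤ × ℤ, ((∃ v, p = D.pos v) ∨ ∃ u v, G.Adj u v ∧ p ∈ D.bends u v) →
    x₀ ≤ p.1 ∧ p.1 ≤ x₀ + W ∧ y₀ ≤ p.2 ∧ p.2 ≤ y₀ + H

/-- The determinant of two vectors (negative when `b` is less than a half turn clockwise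
from `a`). -/
def cr (a b : ℤ × ℤ) : ℤ := a.1 * b.2 - a.2 * b.1

/-- The directions `a`, `b`, `c` are different and in clockwise cyclic order: at least two of
the three determinants are negative. -/
def Cw (a b c : ℤ × ℤ) : Prop :=
  (cr a b < 0 ∧ cr b c < 0) ∨ (cr b c < 0 ∧ cr c a < 0) ∨ (cr c a < 0 ∧ cr a b < 0)

/-- The number of cycles of a permutation, fixed points included. -/
noncomputable def cyc {X : Type} (π : Equiv.Perm X) : ℕ :=
  Nat.card (Quotient (Equiv.Perm.SameCycle.setoid π))

/-- Reversal of darts (oriented edges). -/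
def rev (G : SimpleGraph V) : Equiv.Perm G.Dart :=
  ⟨SimpleGraph.Dart.symm, SimpleGraph.Dart.symm, fun _ => rfl, fun _ => rfl⟩

/-- A plane embedding of a connected graph as a combinatorial map: `σ` is the clockwise rotation
(its cycles are the sets of darts leaving one vertex), the faces are the cycles of `σ ∘ rev`,
Euler's formula `V - E + F = 2` says that the genus is 0, and the outer face is the face of the
dart `out`, that is the face at the corner that precedes `out` in the rotation. -/
structure PlaneEmb (G : SimpleGraph V) where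
  σ : Equiv.Perm G.Dart
  rot : ∀ d e, σ.SameCycle d e ↔ d.fst = e.fst
  euler : Nat.card V + cyc (σ * rev G) = Nat.card G.edgeSet + 2
  out : G.Dart

/-- The embedding is preserved: at every vertex the edge of `σ d` is the next one clockwise after
the edge of `d`, and some unbounded curve starts at the vertex of `out`, straight in a direction
`r` after which `out` is the first edge clockwise, and meets no edge after its start. -/
def Preserves {G : SimpleGraph V} (E : PlaneEmb G) (D : Drawing V) : Prop :=
  (∀ d e : G.Dart, e.fst = d.fst → e ≠ d → e ≠ E.σ d →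
    Cw (D.dir d.fst d.snd) (D.dir d.fst (E.σ d).snd) (D.dir d.fst e.snd)) ∧
  ∃ (r : ℤ × ℤ) (γ : ℝ → ℝ × ℝ) (ε : ℝ), 0 < ε ∧ Continuous γ ∧
    (∀ t, 0 ≤ t → t ≤ ε → γ t = toR (D.pos E.out.fst) + t • toR r) ∧
    (∀ t, 0 < t → ∀ x y, G.Adj x y → γ t ∉ D.trace x y) ∧
    (∀ R : ℝ, ∃ t, 0 < t ∧ R ≤ ‖γ t‖) ∧
    ∀ e : G.Dart, e.fst = E.out.fst → e ≠ E.out →
      Cw r (D.dir E.out.fst E.out.snd) (D.dir e.fst e.snd)

/-- A planar, embedding-preserving, monotone grid drawing with at most `b` bends per edge. -/
def Good {G : SimpleGraph V} (E : PlaneEmb G) (D : Drawing V) (b : ℕ) : Prop :=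
  Planar G D ∧ Preserves E D ∧ IsMono G D ∧ ∀ u v, G.Adj u v → (D.bends u v).length ≤ b

/-- The cactus on `4 k + 1` vertices: a root `none`, `k` triangles `none, (i, false, false),
(i, true, false)`, and a leaf `(i, b, true)` at each `(i, b, false)`. -/
def C (k : ℕ) : SimpleGraph (Option (Fin k × Bool × Bool)) := SimpleGraph.fromRel fun x y =>
  (∃ i b, x = none ∧ y = some (i, b, false)) ∨
  (∃ i, x = some (i, false, false) ∧ y = some (i, true, false)) ∨
  (∃ i b, x = some (i, b, false) ∧ y = some (i, b, true))

end Pool.Agent.Work.MP_37ce0f_lc.B
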