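import Pool.Agent.Work.MP_37ce0f_lc.B.Fam

namespace Pool.Agent.Work.MP_37ce0f_lc.B

variable {k : ℕ}

/-- the five edges of layer `i` -/
def eul_edge (p : Fin k × Fin 5) : (C k).edgeSet :=
  match p with
  | (i, 0) => ⟨s(none, some (i, false, false)), fam_root i false⟩
  | (i, 1) => ⟨s(none, some (i, true, false)), fam_root i true⟩
  | (i, 2) => ⟨s(some (i, false, false), some (i, true, false)), fam_side i false⟩
  | (i, 3) => ⟨s(some (i, false, false), some (i, false, true)), fam_leaf i false false⟩
  | (i, 4) => ⟨s(some (i, true, false), some (i, true, true)), fam_leaf i true false⟩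

theorem eul_edge_inj : Function.Injective (eul_edge (k := k)) := by
  rintro ⟨i, a⟩ ⟨j, b⟩ h
  have h1 := congrArg Subtype.val h
  fin_cases a <;> fin_cases b <;> simp [eul_edge] at h1 ⊢ <;> exact h1

theorem eul_edge_surj : Function.Surjective (eul_edge (k := k)) := by
  rintro ⟨e, he⟩
  induction e using Sym2.ind with
  | h x y =>
    rcases C_adj.1 he with ⟨i, b, rfl, rfl⟩ | ⟨i, b, rfl, rfl⟩ | ⟨i, b, rfl, rfl⟩ |
      ⟨i, b, t, rfl, rfl⟩
    · cases b
      · exact ⟨(i, 0), rfl⟩
      · exact ⟨(i, 1), rfl⟩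
    · cases b
      · exact ⟨(i, 0), Subtype.ext Sym2.eq_swap⟩
      · exact ⟨(i, 1), Subtype.ext Sym2.eq_swap⟩
    · cases b
      · exact ⟨(i, 2), rfl⟩
      · exact ⟨(i, 2), Subtype.ext Sym2.eq_swap⟩
    · cases b <;> cases t
      · exact ⟨(i, 3), rfl⟩
      · exact ⟨(i, 3), Subtype.ext Sym2.eq_swap⟩
      · exact ⟨(i, 4), rfl⟩
      · exact ⟨(i, 4), Subtype.ext Sym2.eq_swap⟩

/-- `5 k` edges: e.g. a bijection `Fin k × Fin 5 ≃ edgeSet`, or `10 k` darts
(`SimpleGraph.dart_card_eq_twice_card_edges`) -/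
theorem card_edge : Nat.card (C k).edgeSet = 5 * k := by
  rw [← Nat.card_eq_of_bijective _ ⟨eul_edge_inj, eul_edge_surj⟩, Nat.card_eq_fintype_card,
    Fintype.card_prod, Fintype.card_fin, Fintype.card_fin, Nat.mul_comm]

/-- the face label of a dart -/
def eul_lab : VC k → VC k → ℕ
  | none, none => 0
  | none, some (i, false, _) => i.val + 1
  | none, some (i, true, _) => i.val
  | some (i, false, false), none => i.val
  | some (i, false, false), some _ => i.val + 1
  | some (i, true, false), none => i.val + 1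
  | some (i, true, false), some (_, false, _) => i.val
  | some (i, true, false), some (_, true, _) => i.val + 1
  | some (i, _, true), _ => i.val + 1

theorem eul_lab_step {x y : VC k} (h : (C k).Adj x y) : eul_lab y (nxt y x) = eul_lab x y := by
  rcases C_adj.1 h with ⟨i, b, rfl, rfl⟩ | ⟨i, b, rfl, rfl⟩ | ⟨i, b, rfl, rfl⟩ |
    ⟨i, b, t, rfl, rfl⟩
  · cases b <;> rfl
  · cases b
    · simp only [nxt]
      split_ifs with h0
      · rfl
      · simp only [eul_lab]
        omega
    · simp only [nxt]
      split_ifs with h0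
      · rfl
      · rfl
  · cases b <;> rfl
  · cases b <;> cases t <;> rfl

theorem eul_lab_pow (n : ℕ) (d : (C k).Dart) :
    eul_lab (((sg k * rev (C k)) ^ n) d).fst (((sg k * rev (C k)) ^ n) d).snd =
      eul_lab d.fst d.snd := by
  induction n with
  | zero => rfl
  | succ n ih =>
    rw [pow_succ', Equiv.Perm.mul_apply, ← ih]
    exact eul_lab_step (((sg k * rev (C k)) ^ n) d).adj

theorem eul_step {x y z : VC k} (hy : (C k).Adj x y) (hz : (C k).Adj y z) (h : nxt y x = z) :
    (sg k * rev (C k)).SameCycle ⟨(x, y), hy⟩ ⟨(y, z), hz⟩ := by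
  subst h
  exact ⟨1, rfl⟩

/-- one dart in each face -/
def eul_base (hk : 0 < k) (j : Fin (k + 1)) : (C k).Dart :=
  if h : j.val < k then ⟨(none, some (⟨j.val, h⟩, true, false)), fam_root _ _⟩
  else ⟨(none, some (⟨k - 1, by omega⟩, false, false)), fam_root _ _⟩

theorem eul_lab_base (hk : 0 < k) (j : Fin (k + 1)) :
    eul_lab (eul_base hk j).fst (eul_base hk j).snd = j.val := by
  have hj := j.isLt
  unfold eul_base
  split_ifs with h
  · rfl
  · simp only [eul_lab]
    omega

theorem eul_ov (hk : 0 < k) (i : Fin k) :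
    eul_base hk i.castSucc = ⟨(none, some (i, true, false)), fam_root _ _⟩ := by
  unfold eul_base
  rw [dif_pos (show i.castSucc.val < k from i.isLt)]
  rfl

theorem eul_vo (hk : 0 < k) (i : Fin k) :
    (sg k * rev (C k)).SameCycle ⟨(some (i, true, false), none), fam_up _ _⟩
      (eul_base hk i.succ) := by
  have hi := i.isLt
  unfold eul_base
  split_ifs with h
  · have h' : i.val + 1 < k := h
    exact eul_step _ _ (by simp [nxt, h'])
  · have h' : ¬ i.val + 1 < k := h
    refine eul_step _ _ ?_
    simp only [nxt, dif_neg h', Option.some.injEq, Prod.mk.injEq, Fin.ext_iff, and_true]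
    omega

theorem eul_reach (hk : 0 < k) (d : (C k).Dart) :
    ∃ j, (sg k * rev (C k)).SameCycle d (eul_base hk j) := by
  obtain ⟨⟨x, y⟩, h⟩ := d
  have a7 := eul_vo hk
  have a6 := fun i : Fin k => (eul_step (fam_leaf i true true) (fam_up i true) rfl).trans (a7 i)
  have a5 := fun i : Fin k =>
    (eul_step (fam_leaf i true false) (fam_leaf i true true) rfl).trans (a6 i)
  have a4 := fun i : Fin k =>
    (eul_step (fam_side i false) (fam_leaf i true false) rfl).trans (a5 i)
  have a3 := fun i : Fin k =>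
    (eul_step (fam_leaf i false true) (fam_side i false) rfl).trans (a4 i)
  have a2 := fun i : Fin k =>
    (eul_step (fam_leaf i false false) (fam_leaf i false true) rfl).trans (a3 i)
  have a1 := fun i : Fin k =>
    (eul_step (fam_root i false) (fam_leaf i false false) rfl).trans (a2 i)
  have b1 : ∀ i : Fin k, (sg k * rev (C k)).SameCycle
      ⟨(none, some (i, true, false)), fam_root _ _⟩ (eul_base hk i.castSucc) := fun i => by
    rw [eul_ov]
  have b2 := fun i : Fin k =>
    (eul_step (fam_root i true) (fam_side i true) rfl).symm.trans (b1 i)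
  have b3 := fun i : Fin k =>
    (eul_step (fam_side i true) (fam_up i false) rfl).symm.trans (b2 i)
  rcases C_adj.1 h with ⟨i, b, rfl, rfl⟩ | ⟨i, b, rfl, rfl⟩ | ⟨i, b, rfl, rfl⟩ |
    ⟨i, b, t, rfl, rfl⟩
  · cases b
    · exact ⟨_, a1 i⟩
    · exact ⟨_, b1 i⟩
  · cases b
    · exact ⟨_, b3 i⟩
    · exact ⟨_, a7 i⟩
  · cases b
    · exact ⟨_, a4 i⟩
    · exact ⟨_, b2 i⟩
  · cases b <;> cases t
    · exact ⟨_, a2 i⟩
    · exact ⟨_, a3 i⟩
    · exact ⟨_, a5 i⟩
    · exact ⟨_, a6 i⟩

/-- `k + 1` faces. With `φ = sg * rev`, `u = (i,false,false)`, `v = (i,true,false)`, leaves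
`w, w'`: `ou → uw → wu → uv → vw' → w'v → vo` (label `i + 1`), then `o v₊ → v₊ u₊ → u₊ o → o u`
for layer `i + 1` (so the darts `ov, vu, uo` of layer `i` get label `i`); for the last layer
`vo → ou`, and for layer `0` `uo → ov`. The label in `Fin (k + 1)` is `φ`-invariant, onto, and
darts of equal label are in one cycle; so the quotient is equivalent to `Fin (k + 1)`. -/
theorem cyc_face (hk : 0 < k) : cyc (sg k * rev (C k)) = k + 1 := by
  have hb : Function.Bijective (fun j : Fin (k + 1) =>
      Quotient.mk (Equiv.Perm.SameCycle.setoid (sg k * rev (C k))) (eul_base hk j)) := by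
    constructor
    · intro i j h
      have h1 : (sg k * rev (C k)).SameCycle (eul_base hk i) (eul_base hk j) := Quotient.exact h
      obtain ⟨n, hn⟩ := h1.exists_nat_pow_eq
      have h2 := eul_lab_pow n (eul_base hk i)
      rw [hn, eul_lab_base, eul_lab_base] at h2
      exact Fin.ext h2.symm
    · intro q
      induction q using Quotient.inductionOn with
      | h d =>
        obtain ⟨j, hj⟩ := eul_reach hk d
        exact ⟨j, Quotient.sound hj.symm⟩
  unfold cyc
  rw [← Nat.card_eq_of_bijective _ hb, Nat.card_eq_fintype_card, Fintype.card_fin]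

/-- the nested embedding -/
noncomputable def emb (k : ℕ) (hk : 0 < k) : PlaneEmb (C k) where
  σ := sg k
  rot := sg_rot
  euler := by
    rw [cyc_face hk, card_edge, Nat.card_eq_fintype_card]
    simp only [Fintype.card_option, Fintype.card_prod, Fintype.card_fin, Fintype.card_bool]
    omega
  out := ⟨(none, some (⟨k - 1, by omega⟩, false, false)), C_adj.2 (Or.inl ⟨_, _, rfl, rfl⟩)⟩

end Pool.Agent.Work.MP_37ce0f_lc.B
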