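import Pool.Agent.Work.MP_37ce0f_lc.B.Defs

namespace Pool.Agent.Work.MP_37ce0f_lc.B

abbrev VC (k : ℕ) := Option (Fin k × Bool × Bool)

variable {k : ℕ}

theorem C_adj {x y : VC k} : (C k).Adj x y ↔
    (∃ i b, x = none ∧ y = some (i, b, false)) ∨ (∃ i b, x = some (i, b, false) ∧ y = none) ∨
    (∃ i b, x = some (i, b, false) ∧ y = some (i, !b, false)) ∨
    (∃ i b t, x = some (i, b, t) ∧ y = some (i, b, !t)) := by
  unfold C
  rw [SimpleGraph.fromRel_adj]
  constructor
  · rintro ⟨-, h | h⟩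
    · rcases h with ⟨i, b, rfl, rfl⟩ | ⟨i, rfl, rfl⟩ | ⟨i, b, rfl, rfl⟩
      · exact Or.inl ⟨i, b, rfl, rfl⟩
      · exact Or.inr (Or.inr (Or.inl ⟨i, false, rfl, rfl⟩))
      · exact Or.inr (Or.inr (Or.inr ⟨i, b, false, rfl, rfl⟩))
    · rcases h with ⟨i, b, rfl, rfl⟩ | ⟨i, rfl, rfl⟩ | ⟨i, b, rfl, rfl⟩
      · exact Or.inr (Or.inl ⟨i, b, rfl, rfl⟩)
      · exact Or.inr (Or.inr (Or.inl ⟨i, true, rfl, rfl⟩))
      · exact Or.inr (Or.inr (Or.inr ⟨i, b, true, rfl, rfl⟩))
  · rintro (⟨i, b, rfl, rfl⟩ | ⟨i, b, rfl, rfl⟩ | ⟨i, b, rfl, rfl⟩ | ⟨i, b, t, rfl, rfl⟩)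
    · exact ⟨by simp, Or.inl (Or.inl ⟨i, b, rfl, rfl⟩)⟩
    · exact ⟨by simp, Or.inr (Or.inl ⟨i, b, rfl, rfl⟩)⟩
    · cases b
      · exact ⟨by simp, Or.inl (Or.inr (Or.inl ⟨i, rfl, rfl⟩))⟩
      · exact ⟨by simp, Or.inr (Or.inr (Or.inl ⟨i, rfl, rfl⟩))⟩
    · cases t
      · exact ⟨by simp, Or.inl (Or.inr (Or.inr ⟨i, b, rfl, rfl⟩))⟩
      · exact ⟨by simp, Or.inr (Or.inr (Or.inr ⟨i, b, rfl, rfl⟩))⟩

theorem fam_root (i : Fin k) (b : Bool) : (C k).Adj none (some (i, b, false)) :=
  C_adj.2 (Or.inl ⟨i, b, rfl, rfl⟩)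

theorem fam_up (i : Fin k) (b : Bool) : (C k).Adj (some (i, b, false)) none :=
  C_adj.2 (Or.inr (Or.inl ⟨i, b, rfl, rfl⟩))

theorem fam_side (i : Fin k) (b : Bool) :
    (C k).Adj (some (i, b, false)) (some (i, !b, false)) :=
  C_adj.2 (Or.inr (Or.inr (Or.inl ⟨i, b, rfl, rfl⟩)))

theorem fam_leaf (i : Fin k) (b t : Bool) :
    (C k).Adj (some (i, b, t)) (some (i, b, !t)) :=
  C_adj.2 (Or.inr (Or.inr (Or.inr ⟨i, b, t, rfl, rfl⟩)))

/-- the neighbour of `x` that follows `y` clockwise -/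
def nxt : VC k → VC k → VC k
  | none, some (i, false, _) => if i.val = 0 then some (i, true, false) else
      some (⟨i.val - 1, lt_of_le_of_lt (Nat.sub_le _ _) i.isLt⟩, false, false)
  | none, some (i, true, _) => if h : i.val + 1 < k then some (⟨i.val + 1, h⟩, true, false) else
      some (i, false, false)
  | none, none => none
  | some (i, false, false), none => some (i, false, true)
  | some (i, false, false), some (_, false, _) => some (i, true, false)
  | some (_, false, false), some (_, true, _) => none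
  | some (i, true, false), none => some (i, false, false)
  | some (i, true, false), some (_, false, _) => some (i, true, true)
  | some (_, true, false), some (_, true, _) => none
  | some (i, b, true), _ => some (i, b, false)

theorem nxt_adj (d : (C k).Dart) : (C k).Adj d.fst (nxt d.fst d.snd) := by
  obtain ⟨⟨x, y⟩, h⟩ := d
  change (C k).Adj x (nxt x y)
  rcases C_adj.1 h with ⟨i, b, rfl, rfl⟩ | ⟨i, b, rfl, rfl⟩ | ⟨i, b, rfl, rfl⟩ |
    ⟨i, b, t, rfl, rfl⟩
  · cases b
    · simp only [nxt]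
      split_ifs
      · exact fam_root _ _
      · exact fam_root _ _
    · simp only [nxt]
      split_ifs
      · exact fam_root _ _
      · exact fam_root _ _
  · cases b
    · exact fam_leaf i false false
    · exact fam_side i true
  · cases b
    · exact fam_up i false
    · exact fam_leaf i true false
  · cases b <;> cases t
    · exact fam_side i false
    · exact fam_leaf i false true
    · exact fam_up i true
    · exact fam_leaf i true true

def sgf (d : (C k).Dart) : (C k).Dart := ⟨(d.fst, nxt d.fst d.snd), nxt_adj d⟩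

theorem fam_inj_root {i j : Fin k} {b c : Bool}
    (h : nxt none (some (i, b, false)) = nxt none (some (j, c, false))) : i = j ∧ b = c := by
  have hi := i.isLt
  have hj := j.isLt
  cases b <;> cases c <;> simp only [nxt] at h <;> split_ifs at h <;>
    simp only [Option.some.injEq, Prod.mk.injEq, Fin.ext_iff, and_true, Bool.true_eq_false,
      Bool.false_eq_true, and_false] at h ⊢ <;> omega

theorem fam_inj {x y z : VC k} (hy : (C k).Adj x y) (hz : (C k).Adj x z)
    (h : nxt x y = nxt x z) : y = z := by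
  rcases C_adj.1 hy with ⟨i, b, rfl, rfl⟩ | ⟨i, b, rfl, rfl⟩ | ⟨i, b, rfl, rfl⟩ |
    ⟨i, b, t, rfl, rfl⟩
  · rcases C_adj.1 hz with ⟨j, c, -, rfl⟩ | ⟨j, c, h', -⟩ | ⟨j, c, h', -⟩ | ⟨j, c, u, h', -⟩
    · obtain ⟨rfl, rfl⟩ := fam_inj_root h
      rfl
    all_goals cases h'
  all_goals
    rcases C_adj.1 hz with ⟨j, c, h', -⟩ | ⟨j, c, h', rfl⟩ | ⟨j, c, h', rfl⟩ | ⟨j, c, u, h', rfl⟩
    all_goals
      cases h'
      all_goals first | rfl | (cases b <;> simp [nxt] at h)

theorem sgf_inj : Function.Injective (sgf (k := k)) := by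
  rintro ⟨⟨x, y⟩, hy⟩ ⟨⟨x', z⟩, hz⟩ h
  have h1 : x = x' := congrArg (fun d : (C k).Dart => d.fst) h
  subst h1
  have h2 : nxt x y = nxt x z := congrArg (fun d : (C k).Dart => d.snd) h
  have h3 : y = z := fam_inj hy hz h2
  subst h3
  rfl

instance finDart : Finite (C k).Dart :=
  Finite.of_injective _ SimpleGraph.Dart.toProd_injective

noncomputable def sg (k : ℕ) : Equiv.Perm (C k).Dart :=
  Equiv.ofBijective sgf (Finite.injective_iff_bijective.1 sgf_inj)

theorem sg_fst (d : (C k).Dart) : (sg k d).fst = d.fst := rfl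

theorem sg_snd (d : (C k).Dart) : (sg k d).snd = nxt d.fst d.snd := rfl

theorem fam_step {x y z : VC k} (hy : (C k).Adj x y) (hz : (C k).Adj x z) (h : nxt x y = z) :
    (sg k).SameCycle ⟨(x, y), hy⟩ ⟨(x, z), hz⟩ := by
  subst h
  exact ⟨1, rfl⟩

theorem fam_down (n : ℕ) (h : n < k) :
    (sg k).SameCycle ⟨(none, some (⟨n, h⟩, false, false)), fam_root _ _⟩
      ⟨(none, some (⟨0, Nat.zero_lt_of_lt h⟩, true, false)), fam_root _ _⟩ := by
  induction n with
  | zero => exact fam_step _ _ (by simp [nxt])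
  | succ n ih =>
    exact (fam_step _ (fam_root ⟨n, Nat.lt_of_succ_lt h⟩ false) (by simp [nxt])).trans
      (ih (Nat.lt_of_succ_lt h))

theorem fam_upw (n : ℕ) (h : n < k) :
    (sg k).SameCycle ⟨(none, some (⟨0, Nat.zero_lt_of_lt h⟩, true, false)), fam_root _ _⟩
      ⟨(none, some (⟨n, h⟩, true, false)), fam_root _ _⟩ := by
  induction n with
  | zero => exact Equiv.Perm.SameCycle.refl _ _
  | succ n ih =>
    exact (ih (Nat.lt_of_succ_lt h)).trans (fam_step _ _ (by simp [nxt, h]))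

theorem fam_base (i : Fin k) (b : Bool) :
    (sg k).SameCycle ⟨(none, some (i, b, false)), fam_root _ _⟩
      ⟨(none, some (⟨0, Nat.zero_lt_of_lt i.isLt⟩, true, false)), fam_root _ _⟩ := by
  cases b
  · exact fam_down i.val i.isLt
  · exact (fam_upw i.val i.isLt).symm

theorem fam_mid (i : Fin k) (b : Bool) {y : VC k} (hy : (C k).Adj (some (i, b, false)) y) :
    (sg k).SameCycle ⟨(some (i, b, false), y), hy⟩ ⟨(some (i, b, false), none), fam_up _ _⟩ := by
  rcases C_adj.1 hy with ⟨j, c, h', -⟩ | ⟨j, c, h', rfl⟩ | ⟨j, c, h', rfl⟩ | ⟨j, c, u, h', rfl⟩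
  · cases h'
  · exact Equiv.Perm.SameCycle.refl _ _
  · cases h'
    cases b
    · exact fam_step _ _ rfl
    · exact (fam_step (fam_up i _) hy rfl).symm
  · cases h'
    cases b
    · exact (fam_step (fam_up i _) hy rfl).symm
    · exact fam_step _ _ rfl

theorem fam_pow (n : ℕ) (d : (C k).Dart) : ((sg k ^ n) d).fst = d.fst := by
  induction n with
  | zero => rfl
  | succ n ih => rw [pow_succ', Equiv.Perm.mul_apply, sg_fst, ih]

/-- at the root every dart is in the cycle of `(none, (0, true, false))`: induction on `i`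
downwards along the `false` darts and upwards along the `true` darts -/
theorem sg_rot (d e : (C k).Dart) : (sg k).SameCycle d e ↔ d.fst = e.fst := by
  constructor
  · intro h
    obtain ⟨n, rfl⟩ := h.exists_nat_pow_eq
    exact (fam_pow n d).symm
  · obtain ⟨⟨x, y⟩, hy⟩ := d
    obtain ⟨⟨x', z⟩, hz⟩ := e
    intro h
    have h1 : x = x' := h
    subst h1
    rcases x with _ | ⟨i, b, t⟩
    · rcases C_adj.1 hy with ⟨i, b, -, rfl⟩ | ⟨i, b, h', -⟩ | ⟨i, b, h', -⟩ | ⟨i, b, t, h', -⟩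
      · rcases C_adj.1 hz with ⟨j, c, -, rfl⟩ | ⟨j, c, h', -⟩ | ⟨j, c, h', -⟩ | ⟨j, c, u, h', -⟩
        · exact (fam_base i b).trans (fam_base j c).symm
        all_goals cases h'
      all_goals cases h'
    · cases t
      · exact (fam_mid i b hy).trans (fam_mid i b hz).symm
      · have h3 : y = z := fam_inj hy hz (by cases b <;> rfl)
        subst h3
        exact Equiv.Perm.SameCycle.refl _ _

end Pool.Agent.Work.MP_37ce0f_lc.B
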