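import Pool.Agent.Work.MP_37ce0f_lc.B.Sys

namespace Pool.Agent.Work.MP_37ce0f_lc.B

variable {V : Type} (D : Drawing V)

/-- the bend of an edge with at most one bend, or its midpoint -/
noncomputable def Drawing.md (u v : V) : ℝ × ℝ :=
  match D.bends u v with
  | [] => (1 / 2 : ℝ) • (toR (D.pos u) + toR (D.pos v))
  | x :: _ => toR x

variable {u v : V}

theorem one_cases (h : (D.bends u v).length ≤ 1) : D.bends u v = [] ∨ ∃ x, D.bends u v = [x] := by
  rcases hb : D.bends u v with _ | ⟨x, _ | ⟨y, l⟩⟩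
  · exact Or.inl rfl
  · exact Or.inr ⟨x, rfl⟩
  · rw [hb] at h
    simp at h

theorem one_md_nil (h : D.bends u v = []) :
    D.md u v = (1 / 2 : ℝ) • (toR (D.pos u) + toR (D.pos v)) := by
  unfold Drawing.md
  rw [h]

theorem one_md_cons {x : ℤ × ℤ} {l : List (ℤ × ℤ)} (h : D.bends u v = x :: l) :
    D.md u v = toR x := by
  unfold Drawing.md
  rw [h]

theorem one_segs_nil (h : D.bends u v = []) : D.segs u v = [(D.pos u, D.pos v)] := by
  simp [Drawing.segs, Drawing.chain, h]

theorem one_segs_one {x : ℤ × ℤ} (h : D.bends u v = [x]) :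
    D.segs u v = [(D.pos u, x), (x, D.pos v)] := by
  simp [Drawing.segs, Drawing.chain, h]

theorem one_toR_sub (a b : ℤ × ℤ) : toR (a - b) = toR a - toR b := by
  simp [toR]

theorem one_toR_inj {a b : ℤ × ℤ} (h : toR a = toR b) : a = b := by
  simp only [toR, Prod.mk.injEq, Int.cast_inj] at h
  exact Prod.ext h.1 h.2

theorem one_split (a b : ℝ × ℝ) : segment ℝ a b =
    segment ℝ a ((1 / 2 : ℝ) • (a + b)) ∪ segment ℝ ((1 / 2 : ℝ) • (a + b)) b := by
  have hm : (1 / 2 : ℝ) • (a + b) ∈ segment ℝ a b :=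
    ⟨1 / 2, 1 / 2, by norm_num, by norm_num, by norm_num, by rw [smul_add]⟩
  apply Set.Subset.antisymm
  · rintro p ⟨s, t, hs, ht, hst, rfl⟩
    obtain rfl : s = 1 - t := by linarith
    rcases le_total t (1 / 2) with h | h
    · refine Or.inl ⟨1 - 2 * t, 2 * t, by linarith, by linarith, by ring, ?_⟩
      module
    · refine Or.inr ⟨2 - 2 * t, 2 * t - 1, by linarith, by linarith, by ring, ?_⟩
      module
  · exact Set.union_subset
      ((convex_segment a b).segment_subset (left_mem_segment ℝ a b) hm)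
      ((convex_segment a b).segment_subset hm (right_mem_segment ℝ a b))

theorem md_symm (h : (D.bends u v).length ≤ 1) : D.md v u = D.md u v := by
  rcases one_cases D h with h0 | ⟨x, h1⟩
  · have h0' : D.bends v u = [] := by rw [D.symm u v, h0]; rfl
    rw [one_md_nil D h0, one_md_nil D h0', add_comm]
  · have h1' : D.bends v u = [x] := by rw [D.symm u v, h1]; rfl
    rw [one_md_cons D h1, one_md_cons D h1']

theorem trace_one (h : (D.bends u v).length ≤ 1) : D.trace u v =
    segment ℝ (toR (D.pos u)) (D.md u v) ∪ segment ℝ (D.md u v) (toR (D.pos v)) := by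
  rcases one_cases D h with h0 | ⟨x, h1⟩
  · rw [one_md_nil D h0, ← one_split]
    ext p
    simp [Drawing.trace, one_segs_nil D h0, seg]
  · rw [one_md_cons D h1]
    ext p
    simp [Drawing.trace, one_segs_one D h1, seg]

theorem md_dir (h : (D.bends u v).length ≤ 1) :
    ∃ c : ℝ, 0 < c ∧ D.md u v - toR (D.pos u) = c • toR (D.dir u v) := by
  rcases one_cases D h with h0 | ⟨x, h1⟩
  · refine ⟨1 / 2, by norm_num, ?_⟩
    rw [one_md_nil D h0, Drawing.dir, h0, one_toR_sub, List.headD_nil]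
    module
  · refine ⟨1, one_pos, ?_⟩
    rw [one_md_cons D h1, Drawing.dir, h1, one_toR_sub, List.headD_cons, one_smul]

theorem first_sub : segment ℝ (toR (D.pos u)) (toR (D.pos u) + toR (D.dir u v)) ⊆ D.trace u v := by
  intro p hp
  rw [Drawing.dir, one_toR_sub, add_sub_cancel] at hp
  refine ⟨(D.pos u, (D.bends u v).headD (D.pos v)), ?_, hp⟩
  unfold Drawing.segs Drawing.chain
  rcases D.bends u v with _ | ⟨x, l⟩ <;> simp

/-- all segments of the edge from `u` to `v` have positive product with `f` -/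
def Drawing.Pos (f : ℝ × ℝ) (u v : V) : Prop := ∀ s ∈ D.segs u v,
  0 < f.1 * ((s.2.1 : ℝ) - s.1.1) + f.2 * ((s.2.2 : ℝ) - s.1.2)

/-- the linear functional of a vector -/
def lin (f : ℝ × ℝ) : ℝ × ℝ →ₗ[ℝ] ℝ := f.1 • LinearMap.fst ℝ ℝ ℝ + f.2 • LinearMap.snd ℝ ℝ ℝ

theorem lin_apply (f p : ℝ × ℝ) : lin f p = f.1 * p.1 + f.2 * p.2 := rfl

theorem pos_md (h : (D.bends u v).length ≤ 1) {f : ℝ × ℝ} (hf : D.Pos f u v) :
    lin f (toR (D.pos u)) < lin f (D.md u v) ∧ lin f (D.md u v) < lin f (toR (D.pos v)) := by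
  rcases one_cases D h with h0 | ⟨x, h1⟩
  · have k := hf (D.pos u, D.pos v) (by rw [one_segs_nil D h0]; simp)
    rw [one_md_nil D h0, map_smul, map_add, smul_eq_mul]
    simp only [lin_apply, toR] at k ⊢
    constructor <;> linarith
  · have k1 := hf (D.pos u, x) (by rw [one_segs_one D h1]; simp)
    have k2 := hf (x, D.pos v) (by rw [one_segs_one D h1]; simp)
    rw [one_md_cons D h1]
    simp only [lin_apply, toR] at k1 k2 ⊢
    constructor <;> linarith

/-- a simple chain does not come back to its start -/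
theorem start_not_mem {G : SimpleGraph V} (hP : Planar G D) (a : G.Adj u v)
    (h : (D.bends u v).length ≤ 1) : toR (D.pos u) ∉ segment ℝ (D.md u v) (toR (D.pos v)) := by
  obtain ⟨hne, hpw⟩ := hP.2.1 u v a
  rcases one_cases D h with h0 | ⟨x, h1⟩
  · have k : D.pos u ≠ D.pos v := hne (D.pos u, D.pos v) (by rw [one_segs_nil D h0]; simp)
    rw [one_md_nil D h0]
    rintro ⟨s, t, hs, ht, hst, e⟩
    obtain rfl : s = 1 - t := by linarith
    have e2 : ((1 + t) / 2) • (toR (D.pos v) - toR (D.pos u)) = 0 := by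
      rw [← sub_eq_zero] at e
      rw [← e]
      module
    rcases smul_eq_zero.1 e2 with e3 | e3
    · linarith
    · exact k (one_toR_inj (sub_eq_zero.1 e3)).symm
  · have k : D.pos u ≠ x := hne (D.pos u, x) (by rw [one_segs_one D h1]; simp)
    rw [one_segs_one D h1] at hpw
    rw [one_md_cons D h1]
    intro hm
    have k2 := (List.pairwise_cons.1 hpw).1 (x, D.pos v) (by simp) (toR (D.pos u))
      (left_mem_segment ℝ _ _) hm
    exact k (one_toR_inj k2.2)

/-- a common point of two different edges is a common end -/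
theorem common {G : SimpleGraph V} (hP : Planar G D) {x y : V} (a : G.Adj u v) (b : G.Adj x y)
    (hne : s(u, v) ≠ s(x, y)) {p : ℝ × ℝ} (h1 : p ∈ D.trace u v) (h2 : p ∈ D.trace x y) :
    ∃ w, p = toR (D.pos w) ∧ (w = u ∨ w = v) ∧ (w = x ∨ w = y) := by
  obtain ⟨w, rfl⟩ := hP.2.2.2 u v x y a b hne p h1 h2
  exact ⟨w, rfl, hP.2.2.1 u v w a h1, hP.2.2.1 x y w b h2⟩

theorem one_crR {a b : ℤ × ℤ} (h : cr a b < 0) {s t : ℝ} (hs : 0 < s) (ht : 0 < t) :
    crR (s • toR a) (t • toR b) < 0 := by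
  have k : ((cr a b : ℤ) : ℝ) < 0 := by exact_mod_cast h
  have e : crR (s • toR a) (t • toR b) = s * t * ((cr a b : ℤ) : ℝ) := by
    simp only [crR, cr, toR, Prod.smul_mk, smul_eq_mul]
    push_cast
    ring
  rw [e]
  exact mul_neg_of_pos_of_neg (mul_pos hs ht) k

theorem cwR_of {a b c : ℤ × ℤ} (h : Cw a b c) {s t w : ℝ} (hs : 0 < s) (ht : 0 < t)
    (hw : 0 < w) : CwR (s • toR a) (t • toR b) (w • toR c) := by
  rcases h with h | h | h
  · exact Or.inl ⟨one_crR h.1 hs ht, one_crR h.2 ht hw⟩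
  · exact Or.inr (Or.inl ⟨one_crR h.1 ht hw, one_crR h.2 hw hs⟩)
  · exact Or.inr (Or.inr ⟨one_crR h.1 hw hs, one_crR h.2 hs ht⟩)

theorem one_walk {G : SimpleGraph V} (f : ℝ × ℝ) {x y : V} (p : G.Walk x y)
    (hp : ∀ e ∈ p.darts, D.Pos f e.fst e.snd) :
    Relation.ReflTransGen (fun x y => G.Adj x y ∧ D.Pos f x y) x y := by
  induction p with
  | nil => exact Relation.ReflTransGen.refl
  | cons a q ih =>
    refine Relation.ReflTransGen.head ⟨a, hp ⟨(_, _), a⟩ (by simp)⟩ (ih fun e he => hp e ?_)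
    simp [he]

theorem reach {G : SimpleGraph V} (h : IsMono G D) (u v : V) : ∃ f : ℝ × ℝ,
    Relation.ReflTransGen (fun x y => G.Adj x y ∧ D.Pos f x y) u v := by
  obtain ⟨p, -, f, hf⟩ := h u v
  exact ⟨f, one_walk D f p hf⟩

end Pool.Agent.Work.MP_37ce0f_lc.B
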