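import Pool.Agent.Work.MP_37ce0f_lc.B.Eul

namespace Pool.Agent.Work.MP_37ce0f_lc.B

theorem ord_int {a b c q r s : ℤ} (e : c * s = r * b - a * q)
    (h : (a < 0 ∧ b < 0) ∨ (b < 0 ∧ c < 0) ∨ (c < 0 ∧ a < 0))
    (h' : (-c < 0 ∧ q < 0) ∨ (q < 0 ∧ r < 0) ∨ (r < 0 ∧ -c < 0)) :
    ((b < 0 ∧ q < 0) ∨ (q < 0 ∧ -s < 0) ∨ (-s < 0 ∧ b < 0)) ∧
    ((a < 0 ∧ s < 0) ∨ (s < 0 ∧ r < 0) ∨ (r < 0 ∧ a < 0)) := by
  rcases lt_or_ge c 0 with hc | hc
  · have hq : q < 0 := by omega
    have hr : r < 0 := by omega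
    rcases lt_or_ge a 0 with ha | ha
    · rcases lt_or_ge b 0 with hb | hb
      · exact ⟨Or.inl ⟨hb, hq⟩, Or.inr (Or.inr ⟨hr, ha⟩)⟩
      · have : 0 < s := by
          by_contra hs
          have h1 := mul_pos_of_neg_of_neg ha hq
          have h2 := mul_nonpos_of_nonpos_of_nonneg hr.le hb
          have h3 := mul_nonneg_of_nonpos_of_nonpos hc.le (not_lt.1 hs)
          omega
        exact ⟨Or.inr (Or.inl ⟨hq, by omega⟩), Or.inr (Or.inr ⟨hr, ha⟩)⟩
    · have hb : b < 0 := by omega
      have : s < 0 := by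
        by_contra hs
        have h1 := mul_pos_of_neg_of_neg hr hb
        have h2 := mul_nonpos_of_nonneg_of_nonpos ha hq.le
        have h3 := mul_nonpos_of_nonpos_of_nonneg hc.le (not_lt.1 hs)
        omega
      exact ⟨Or.inl ⟨hb, hq⟩, Or.inr (Or.inl ⟨this, hr⟩)⟩
  · have ha : a < 0 := by omega
    have hb : b < 0 := by omega
    rcases lt_or_ge q 0 with hq | hq
    · rcases lt_or_ge r 0 with hr | hr
      · exact ⟨Or.inl ⟨hb, hq⟩, Or.inr (Or.inr ⟨hr, ha⟩)⟩
      · have : s < 0 := by
          by_contra hs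
          have h1 := mul_pos_of_neg_of_neg ha hq
          have h2 := mul_nonpos_of_nonneg_of_nonpos hr hb.le
          have h3 := mul_nonneg hc (not_lt.1 hs)
          omega
        exact ⟨Or.inl ⟨hb, hq⟩, Or.inl ⟨ha, this⟩⟩
    · have hr : r < 0 := by omega
      have : 0 < s := by
        by_contra hs
        have h1 := mul_pos_of_neg_of_neg hr hb
        have h2 := mul_nonpos_of_nonpos_of_nonneg ha.le hq
        have h3 := mul_nonpos_of_nonneg_of_nonpos hc (not_lt.1 hs)
        omega
      exact ⟨Or.inr (Or.inr ⟨by omega, hb⟩), Or.inr (Or.inr ⟨hr, ha⟩)⟩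

theorem ord_cr (a b : ℤ × ℤ) : cr a b = -cr b a := by
  unfold cr; ring

/-- transitivity of the cyclic order (Plücker: `cr x y * cr z w - cr x z * cr y w +
cr x w * cr y z = 0`) -/
theorem Cw.trans {x y z w : ℤ × ℤ} (h : Cw x y z) (h' : Cw x z w) : Cw y z w ∧ Cw x y w := by
  unfold Cw at h h' ⊢
  rw [ord_cr x z] at h'
  rw [ord_cr w y]
  exact ord_int (by unfold cr; ring) h h'

theorem Cw.rot {x y z : ℤ × ℤ} (h : Cw x y z) : Cw y z x := by
  unfold Cw at h ⊢
  tauto

/-- `D 0, …, D (n-1)` with `D (a + 1)` next after `D a` and `D 0` first after `r`: induction on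
`a` with `Cw.trans` for `x = D a`, `y = D (a + 1)`, `z = D b`, `w = r`. -/
theorem cw_all (n : ℕ) (D : ℕ → ℤ × ℤ) (r : ℤ × ℤ) (h0 : ∀ b, 0 < b → b < n → Cw r (D 0) (D b))
    (h : ∀ a b, a + 1 < b → b < n → Cw (D a) (D (a + 1)) (D b)) :
    ∀ a b, a < b → b < n → Cw r (D a) (D b) := by
  intro a
  induction a with
  | zero => exact h0
  | succ a ih =>
    intro b hab hb
    exact ((h a b hab hb).trans (ih b (by omega) hb).rot).1.rot.rot

/-- the neighbours of the root in clockwise order -/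
def ord_f (k m : ℕ) : VC k :=
  if h : m < k then some (⟨k - 1 - m, by omega⟩, false, false)
  else if h' : m - k < k then some (⟨m - k, h'⟩, true, false) else none

theorem ord_f_lo {k : ℕ} (i : Fin k) : ord_f k (k - 1 - i) = some (i, false, false) := by
  have := i.isLt
  unfold ord_f
  rw [dif_pos (by omega)]
  congr 2
  exact Fin.ext (by simp only; omega)

theorem ord_f_hi {k : ℕ} (i : Fin k) : ord_f k (k + i) = some (i, true, false) := by
  have := i.isLt
  unfold ord_f
  rw [dif_neg (by omega), dif_pos (by omega)]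
  congr 2
  exact Fin.ext (by simp only; omega)

theorem ord_f_adj {k m : ℕ} (h : m < 2 * k) : (C k).Adj none (ord_f k m) := by
  unfold ord_f
  by_cases h1 : m < k
  · rw [dif_pos h1]
    exact C_adj.2 (Or.inl ⟨_, _, rfl, rfl⟩)
  · rw [dif_neg h1, dif_pos (by omega)]
    exact C_adj.2 (Or.inl ⟨_, _, rfl, rfl⟩)

theorem ord_f_ne {k a b : ℕ} (hab : a < b) (hb : b < 2 * k) : ord_f k b ≠ ord_f k a := by
  unfold ord_f
  by_cases h1 : b < k
  · rw [dif_pos h1, dif_pos (by omega : a < k)]
    intro h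
    simp only [Option.some.injEq, Prod.mk.injEq, Fin.mk.injEq, and_true] at h
    omega
  · rw [dif_neg h1, dif_pos (by omega : b - k < k)]
    by_cases h2 : a < k
    · rw [dif_pos h2]
      simp
    · rw [dif_neg h2, dif_pos (by omega : a - k < k)]
      intro h
      simp only [Option.some.injEq, Prod.mk.injEq, Fin.mk.injEq, and_true] at h
      omega

theorem ord_f_nxt {k a : ℕ} (ha : a + 1 < 2 * k) : nxt none (ord_f k a) = ord_f k (a + 1) := by
  unfold ord_f
  by_cases h1 : a + 1 < k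
  · rw [dif_pos h1, dif_pos (by omega : a < k)]
    simp only [nxt]
    rw [if_neg (by omega)]
    congr 2
  · by_cases h2 : a < k
    · rw [dif_pos h2, dif_neg h1, dif_pos (by omega : a + 1 - k < k)]
      simp only [nxt]
      rw [if_pos (by omega)]
      congr 2
      exact Fin.ext (by simp only; omega)
    · rw [dif_neg h2, dif_neg h1, dif_pos (by omega : a + 1 - k < k),
        dif_pos (by omega : a - k < k)]
      simp only [nxt]
      rw [dif_pos (by omega)]
      congr 2
      exact Fin.ext (by simp only; omega)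

/-- number the darts at the root `(k-1,false), …, (0,false), (0,true), …, (k-1,true)` -/
theorem ord {k : ℕ} (hk : 0 < k) (D : Drawing (VC k))
    (h : ∀ d e : (C k).Dart, e.fst = d.fst → e ≠ d → e ≠ (emb k hk).σ d →
      Cw (D.dir d.fst d.snd) (D.dir d.fst ((emb k hk).σ d).snd) (D.dir d.fst e.snd))
    (r : ℤ × ℤ) (hr : ∀ e : (C k).Dart, e.fst = (emb k hk).out.fst → e ≠ (emb k hk).out →
      Cw r (D.dir (emb k hk).out.fst (emb k hk).out.snd) (D.dir e.fst e.snd))
    {i j : Fin k} (hij : i < j) :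
    Cw r (D.dir none (some (j, false, false))) (D.dir none (some (i, false, false))) ∧
    Cw r (D.dir none (some (i, false, false))) (D.dir none (some (j, true, false))) := by
  have h00 : (emb k hk).out.snd = ord_f k 0 := by
    unfold ord_f
    rw [dif_pos hk]
    rfl
  have key := cw_all (2 * k) (fun m => D.dir none (ord_f k m)) r (fun b b0 hb => by
      have := hr ⟨(none, ord_f k b), ord_f_adj hb⟩ rfl (fun e => ord_f_ne b0 hb (by
        rw [← h00, ← e]))
      rw [h00] at this
      exact this)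
    (fun a b hab hb => by
      have h1 : ((emb k hk).σ ⟨(none, ord_f k a), ord_f_adj (by omega)⟩).snd =
          ord_f k (a + 1) := ord_f_nxt (by omega)
      have := h ⟨(none, ord_f k a), ord_f_adj (by omega)⟩ ⟨(none, ord_f k b), ord_f_adj hb⟩ rfl
        (fun e => ord_f_ne (by omega : a < b) hb (congrArg (fun d : (C k).Dart => d.snd) e))
        (fun e => ord_f_ne hab hb (by rw [← h1, ← e]))
      rw [h1] at this
      exact this)
  have hi := i.isLt
  have hj := j.isLt
  have hij' : i.val < j.val := hij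
  have k1 := key (k - 1 - j) (k - 1 - i) (by omega) (by omega)
  have k2 := key (k - 1 - i) (k + j) (by omega) (by omega)
  simp only [ord_f_lo, ord_f_hi] at k1 k2
  exact ⟨k1, k2⟩

theorem ord_leaf {k : ℕ} {u : VC k} {j : Fin k} {c : Bool}
    (h : (C k).Adj u (some (j, c, true))) : u = some (j, c, false) := by
  rcases C_adj.1 h with ⟨i, b, -, g⟩ | ⟨i, b, -, g⟩ | ⟨i, b, -, g⟩ | ⟨i, b, t, rfl, g⟩
  · simp at g
  · simp at g
  · simp at g
  · simp only [Option.some.injEq, Prod.mk.injEq] at g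
    obtain ⟨rfl, rfl, g⟩ := g
    cases t
    · rfl
    · simp at g

theorem ord_mid {k : ℕ} {u : VC k} {j : Fin k} {c : Bool}
    (h : (C k).Adj u (some (j, c, false))) :
    u = none ∨ u = some (j, !c, false) ∨ u = some (j, c, true) := by
  rcases C_adj.1 h with ⟨i, b, g, -⟩ | ⟨i, b, -, g⟩ | ⟨i, b, rfl, g⟩ | ⟨i, b, t, rfl, g⟩
  · exact Or.inl g
  · simp at g
  · simp only [Option.some.injEq, Prod.mk.injEq, and_true] at g
    obtain ⟨rfl, rfl⟩ := g
    simp
  · simp only [Option.some.injEq, Prod.mk.injEq] at g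
    obtain ⟨rfl, rfl, g⟩ := g
    cases t
    · simp at g
    · simp

/-- The end of a chain of oriented edges that comes from outside layer `j` and ends in the leaf
`(j, c, true)`; `Relation.ReflTransGen.cases_tail` four times, `C_adj`. -/
theorem walk_in {k : ℕ} (R : VC k → VC k → Prop) (hR : ∀ u v, R u v → (C k).Adj u v)
    (asym : ∀ u v, R u v → ¬ R v u) {x : VC k} {j : Fin k} {c : Bool}
    (hx : ∀ b t, x ≠ some (j, b, t)) (h : Relation.ReflTransGen R x (some (j, c, true))) :
    R (some (j, c, false)) (some (j, c, true)) ∧ (R none (some (j, c, false)) ∨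
      (R none (some (j, !c, false)) ∧ R (some (j, !c, false)) (some (j, c, false)))) := by
  have step : ∀ b t, Relation.ReflTransGen R x (some (j, b, t)) →
      ∃ u, Relation.ReflTransGen R x u ∧ R u (some (j, b, t)) := fun b t h =>
    h.cases_tail.resolve_left (fun e => hx b t e.symm)
  obtain ⟨u, hu, r1⟩ := step _ _ h
  obtain rfl := ord_leaf (hR _ _ r1)
  refine ⟨r1, ?_⟩
  obtain ⟨u, hu, r2⟩ := step _ _ hu
  rcases ord_mid (hR _ _ r2) with rfl | rfl | rfl
  · exact Or.inl r2
  · obtain ⟨u, hu, r3⟩ := step _ _ hu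
    rcases ord_mid (hR _ _ r3) with rfl | rfl | rfl
    · exact Or.inr ⟨r3, r2⟩
    · rw [Bool.not_not] at r3
      exact absurd r3 (asym _ _ r2)
    · obtain ⟨u, -, r4⟩ := step _ _ hu
      obtain rfl := ord_leaf (hR _ _ r4)
      exact absurd r4 (asym _ _ r3)
  · exact absurd r2 (asym _ _ r1)

end Pool.Agent.Work.MP_37ce0f_lc.B
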