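import Pool.Agent.Work.MP_37ce0f_lc.B.Defs

namespace Pool.Agent.Work.MP_37ce0f_lc.B
open Equiv Equiv.Perm

variable {X : Type} [Fintype X] [DecidableEq X]

/-- the involution `α` on the invariant set `A`, the identity elsewhere -/
def part (α : Perm X) (hα : ∀ x, α (α x) = x) (A : Finset X) (hA : ∀ x, α x ∈ A ↔ x ∈ A) :
    Perm X := Function.Involutive.toPerm (fun x => if x ∈ A then α x else x) (by
  intro x
  by_cases h : x ∈ A
  · simp only [if_pos h, if_pos ((hA x).2 h), hα]
  · simp only [if_neg h])

theorem part_apply (α : Perm X) (hα : ∀ x, α (α x) = x) (A : Finset X)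
    (hA : ∀ x, α x ∈ A ↔ x ∈ A) (x : X) : part α hα A hA x = if x ∈ A then α x else x := rfl

omit [DecidableEq X] in
theorem perm_closed (π : Perm X) (S : X → Prop) (hS : ∀ x, S x → S (π x)) {x y : X}
    (h : π.SameCycle x y) (hx : S x) : S y := by
  obtain ⟨n, -, rfl⟩ := h.exists_pow_eq'
  induction n with
  | zero => simpa using hx
  | succ n ih =>
    rw [pow_succ', Perm.mul_apply]
    exact hS _ (ih ⟨(n : ℤ), by simp⟩)

omit [Fintype X] [DecidableEq X] in
theorem perm_step (π : Perm X) (x : X) : π.SameCycle x (π x) := ⟨1, by simp⟩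

/-- Hint: `π' = π * swap a b`; `π' b = π a`, and the `π`-orbit of `a` avoids `b`, so the
`π'`-iterates of `b` run through it and reach `a`; then `x ~' π x` for every `x`; the induced map
of quotients is onto and not injective. -/
theorem cyc_merge (π : Perm X) {a b : X} (h : ¬ π.SameCycle a b) :
    (π * swap a b).SameCycle a b ∧ (∀ x y, π.SameCycle x y → (π * swap a b).SameCycle x y) ∧
      cyc (π * swap a b) < cyc π := by
  have ea : (π * swap a b) a = π b := by simp
  have eb : (π * swap a b) b = π a := by simp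
  have eo : ∀ x, x ≠ a → x ≠ b → (π * swap a b) x = π x := fun x h1 h2 => by
    simp [swap_apply_of_ne_of_ne h1 h2]
  have hba : (π * swap a b).SameCycle b a := by
    by_contra hn
    have := perm_closed π (fun y => (π * swap a b).SameCycle b y ∧ π.SameCycle a y) (by
      rintro y ⟨h1, h2⟩
      have hya : y ≠ a := fun e => hn (e ▸ h1)
      have hyb : y ≠ b := fun e => h (e ▸ h2)
      refine ⟨?_, h2.trans (perm_step π y)⟩
      rw [← eo y hya hyb]
      exact h1.trans (perm_step _ y)) (perm_step π a).symm
      ⟨by rw [← eb]; exact perm_step _ b, perm_step π a⟩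
    exact hn this.1
  have hall : ∀ x y, π.SameCycle x y → (π * swap a b).SameCycle x y := by
    intro x y hxy
    refine perm_closed π (fun y => (π * swap a b).SameCycle x y) ?_ hxy (SameCycle.refl _ _)
    intro z hz
    by_cases h1 : z = a
    · subst h1
      rw [← eb]
      exact (hz.trans hba.symm).trans (perm_step _ b)
    · by_cases h2 : z = b
      · subst h2
        rw [← ea]
        exact (hz.trans hba).trans (perm_step _ a)
      · rw [← eo z h1 h2]
        exact hz.trans (perm_step _ z)
  refine ⟨hba.symm, hall, ?_⟩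
  classical
  let f : Quotient (SameCycle.setoid π) → Quotient (SameCycle.setoid (π * swap a b)) :=
    Quotient.map id (fun x y hxy => hall x y hxy)
  have hs : Function.Surjective f := by
    intro q
    obtain ⟨x, rfl⟩ := Quotient.exists_rep q
    exact ⟨Quotient.mk _ x, rfl⟩
  have hi : ¬ Function.Injective f := by
    intro hi
    have e : f (Quotient.mk _ a) = f (Quotient.mk _ b) := Quotient.sound hba.symm
    exact h (Quotient.exact (hi e))
  unfold cyc
  let _ := Fintype.ofFinite (Quotient (SameCycle.setoid π))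
  let _ := Fintype.ofFinite (Quotient (SameCycle.setoid (π * swap a b)))
  rw [Nat.card_eq_fintype_card, Nat.card_eq_fintype_card]
  exact Fintype.card_lt_of_surjective_not_injective f hs hi

/-- Hint: if `a ~ b` under `π`, the cycles of `π'` refine those of `π`, and `x ~ y` implies
`x ~' y` or both lie in the `π'`-cycles of `a`, `b`; so the induced map is injective off the
class of `b`. Otherwise use `cyc_merge`. -/
theorem cyc_swap_le (π : Perm X) (a b : X) : cyc (π * swap a b) ≤ cyc π + 1 := by
  have ea : (π * swap a b) a = π b := by simp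
  have eb : (π * swap a b) b = π a := by simp
  have eo : ∀ x, x ≠ a → x ≠ b → (π * swap a b) x = π x := fun x h1 h2 => by
    simp [swap_apply_of_ne_of_ne h1 h2]
  generalize π * swap a b = ρ at ea eb eo
  have key : ∀ x y, π.SameCycle x y → ρ.SameCycle x y ∨
      ((ρ.SameCycle a x ∨ ρ.SameCycle b x) ∧ (ρ.SameCycle a y ∨ ρ.SameCycle b y)) := by
    intro x y hxy
    refine perm_closed π (fun y => ρ.SameCycle x y ∨
      ((ρ.SameCycle a x ∨ ρ.SameCycle b x) ∧ (ρ.SameCycle a y ∨ ρ.SameCycle b y))) ?_ hxy
      (Or.inl (SameCycle.refl _ _))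
    intro z hz
    by_cases h1 : z = a
    · subst h1
      rw [← eb]
      refine Or.inr ⟨?_, Or.inr (perm_step ρ b)⟩
      rcases hz with hz | hz
      · exact Or.inl hz.symm
      · exact hz.1
    · by_cases h2 : z = b
      · subst h2
        rw [← ea]
        refine Or.inr ⟨?_, Or.inl (perm_step ρ a)⟩
        rcases hz with hz | hz
        · exact Or.inr hz.symm
        · exact hz.1
      · rw [← eo z h1 h2]
        rcases hz with hz | ⟨hx, hz | hz⟩
        · exact Or.inl (hz.trans (perm_step ρ z))
        · exact Or.inr ⟨hx, Or.inl (hz.trans (perm_step ρ z))⟩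
        · exact Or.inr ⟨hx, Or.inr (hz.trans (perm_step ρ z))⟩
  classical
  let g : Quotient (SameCycle.setoid ρ) → Option (Quotient (SameCycle.setoid π)) :=
    fun q => if ρ.SameCycle b q.out then none else some (Quotient.mk _ q.out)
  have hg : Function.Injective g := by
    intro p q e
    have fin : ρ.SameCycle p.out q.out → p = q := fun hh => by
      rw [← Quotient.out_eq p, ← Quotient.out_eq q]
      exact Quotient.sound hh
    by_cases hp : ρ.SameCycle b p.out <;> by_cases hq : ρ.SameCycle b q.out
    · exact fin (hp.symm.trans hq)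
    · simp only [g, if_pos hp, if_neg hq] at e
      cases e
    · simp only [g, if_neg hp, if_pos hq] at e
      cases e
    · simp only [g, if_neg hp, if_neg hq, Option.some.injEq] at e
      rcases key _ _ (Quotient.exact e) with hh | ⟨h1, h2⟩
      · exact fin hh
      · exact fin ((h1.resolve_right hp).symm.trans (h2.resolve_right hq))
  have := Nat.card_le_card_of_injective g hg
  rw [Finite.card_option] at this
  exact this

omit [Fintype X] in
theorem perm_inv (α : Perm X) (hα : ∀ x, α (α x) = x) (A : Finset X)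
    (hA : ∀ x, α x ∈ A ↔ x ∈ A) (a : X) (x : X) :
    α x ∈ (A.erase a).erase (α a) ↔ x ∈ (A.erase a).erase (α a) := by
  simp only [Finset.mem_erase, hA, ne_eq, EmbeddingLike.apply_eq_iff_eq]
  have : α x = a ↔ x = α a := ⟨fun e => by rw [← e, hα], fun e => by rw [e, hα]⟩
  rw [this]
  tauto

theorem perm_part (α : Perm X) (hα : ∀ x, α (α x) = x) (A : Finset X)
    (hA : ∀ x, α x ∈ A ↔ x ∈ A) {a : X} (ha : a ∈ A) :
    part α hα A hA =
      swap a (α a) * part α hα ((A.erase a).erase (α a)) (perm_inv α hα A hA a) := by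
  ext x
  rw [Perm.mul_apply, part_apply, part_apply]
  by_cases h1 : x = a
  · subst h1
    simp [ha]
  · by_cases h2 : x = α a
    · subst h2
      simp [(hA a).2 ha, hα]
    · by_cases h3 : x ∈ A
      · have h4 : x ∈ (A.erase a).erase (α a) := by simp [h1, h2, h3]
        rw [if_pos h3, if_pos h4, swap_apply_of_ne_of_ne]
        · intro e
          exact h2 (by rw [← e, hα])
        · intro e
          exact h1 (α.injective e)
      · have h4 : x ∉ (A.erase a).erase (α a) := by simp [h3]
        rw [if_neg h3, if_neg h4, swap_apply_of_ne_of_ne h1 h2]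

omit [Fintype X] in
theorem perm_card (α : Perm X) (hf : ∀ x, α x ≠ x) (A : Finset X)
    (hA : ∀ x, α x ∈ A ↔ x ∈ A) {a : X} (ha : a ∈ A) :
    ((A.erase a).erase (α a)).card + 2 = A.card := by
  have h1 := Finset.card_erase_add_one ha
  have h2 := Finset.card_erase_add_one
    (Finset.mem_erase.2 ⟨hf a, (hA a).2 ha⟩ : α a ∈ A.erase a)
  omega

/-- Hint: induction on `A`, removing a pair `x, α x` (`part A = part (A \ {x, α x}) * swap`). -/
theorem cyc_part_le (π α : Perm X) (hα : ∀ x, α (α x) = x) (hf : ∀ x, α x ≠ x) (A : Finset X)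
    (hA : ∀ x, α x ∈ A ↔ x ∈ A) : 2 * cyc (π * part α hα A hA) ≤ 2 * cyc π + A.card := by
  induction hn : A.card using Nat.strong_induction_on generalizing A π with
  | _ n ih =>
    rcases A.eq_empty_or_nonempty with rfl | ⟨a, ha⟩
    · have : part α hα ∅ hA = 1 := by
        ext x
        simp [part_apply]
      rw [this, mul_one]
      omega
    · have h1 := perm_card α hf A hA ha
      have h2 := ih _ (by omega) (π * swap a (α a)) _ (perm_inv α hα A hA a) rfl
      have h3 := cyc_swap_le π a (α a)
      rw [perm_part α hα A hA ha, ← mul_assoc]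
      omega

/-- `τ` is one cycle, numbered by `ps`. Hint: `cyc τ ≤ 1`; under `τ * swap a (α a)` the set of
`x` with `ps a < ps x ≤ ps (α a)` is invariant, contains `c` and not `α c`, so the second swap
merges: at most `1` cycle after two swaps; then `cyc_part_le` on `A \ {a, α a, c, α c}`. -/
theorem noncross (τ α : Perm X) (hα : ∀ x, α (α x) = x) (hf : ∀ x, α x ≠ x) (A : Finset X)
    (hA : ∀ x, α x ∈ A ↔ x ∈ A) (ps : X → ℕ) (N : ℕ) (hinj : Function.Injective ps)
    (hlt : ∀ x, ps x < N) (hsur : ∀ t, t < N → ∃ x, ps x = t)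
    (hτ : ∀ x, ps (τ x) = (ps x + 1) % N)
    (hc : A.card ≤ 2 * cyc (τ * part α hα A hA)) {a c : X} (ha : a ∈ A) (hc' : c ∈ A)
    (h1 : ps a < ps c) (h2 : ps c < ps (α a)) (h3 : ps (α a) < ps (α c)) : False := by
  have hN : ps (α c) < N := hlt _
  have hone : cyc τ ≤ 1 := by
    obtain ⟨x₀, hx₀⟩ := hsur 0 (by omega)
    have hall : ∀ t, t < N → ∀ y, ps y = t → τ.SameCycle x₀ y := by
      intro t
      induction t with
      | zero =>
        intro _ y hy
        rw [hinj (hy.trans hx₀.symm)]
      | succ t ih =>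
        intro ht y hy
        obtain ⟨z, hz⟩ := hsur t (by omega)
        have e : τ z = y := hinj (by rw [hτ, hz, hy, Nat.mod_eq_of_lt ht])
        rw [← e]
        exact (ih (by omega) z hz).trans (perm_step τ z)
    unfold cyc
    rw [Finite.card_le_one_iff_subsingleton]
    refine ⟨fun p q => ?_⟩
    obtain ⟨x, rfl⟩ := Quotient.exists_rep p
    obtain ⟨y, rfl⟩ := Quotient.exists_rep q
    exact Quotient.sound ((hall _ (hlt x) x rfl).symm.trans (hall _ (hlt y) y rfl))
  have hns : ¬ (τ * swap a (α a)).SameCycle c (α c) := by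
    intro hs
    have := perm_closed (τ * swap a (α a)) (fun x => ps a < ps x ∧ ps x ≤ ps (α a)) (by
      rintro x ⟨k1, k2⟩
      by_cases e : x = α a
      · subst e
        rw [Perm.mul_apply, swap_apply_right, hτ, Nat.mod_eq_of_lt (by omega)]
        omega
      · have e1 : x ≠ a := fun e' => by rw [e'] at k1; omega
        have e2 : ps x ≠ ps (α a) := fun e' => e (hinj e')
        rw [Perm.mul_apply, swap_apply_of_ne_of_ne e1 e, hτ, Nat.mod_eq_of_lt (by omega)]
        omega) hs ⟨h1, h2.le⟩
    omega
  have hm := (cyc_merge _ hns).2.2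
  have hs := cyc_swap_le τ a (α a)
  have hcA : c ∈ (A.erase a).erase (α a) := by
    refine Finset.mem_erase.2 ⟨fun e => ?_, Finset.mem_erase.2 ⟨fun e => ?_, hc'⟩⟩
    · rw [e] at h2; omega
    · rw [e] at h1; omega
  have k1 := perm_card α hf A hA ha
  have k2 := perm_card α hf _ (perm_inv α hα A hA a) hcA
  have k3 := cyc_part_le (τ * swap a (α a) * swap c (α c)) α hα hf _
    (perm_inv α hα _ (perm_inv α hα A hA a) c)
  rw [perm_part α hα A hA ha, perm_part α hα _ (perm_inv α hα A hA a) hcA, ← mul_assoc,
    ← mul_assoc] at hc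
  omega

end Pool.Agent.Work.MP_37ce0f_lc.B
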