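import Pool.Agent.Work.MP_37ce0f_lc.B.Sys

namespace Pool.Agent.Work.MP_37ce0f_lc.B
namespace Sys
variable {k : ℕ} {B : ℝ} (S : Sys k B)

theorem pick_seg (T : (ℝ × ℝ) ≃ₗ[ℝ] (ℝ × ℝ)) (p q w : ℝ × ℝ) :
    T w ∈ segment ℝ (T p) (T q) ↔ w ∈ segment ℝ p q := by
  constructor
  · rintro ⟨a, b, ha, hb, hab, h⟩
    refine ⟨a, b, ha, hb, hab, T.injective ?_⟩
    rw [map_add, map_smul, map_smul, h]
  · rintro ⟨a, b, ha, hb, hab, h⟩
    exact ⟨a, b, ha, hb, hab, by rw [← h, map_add, map_smul, map_smul]⟩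

theorem pick_hex (T : (ℝ × ℝ) ≃ₗ[ℝ] (ℝ × ℝ)) (y e : Bool → ℝ × ℝ) (a w : ℝ × ℝ) :
    T w ∈ Hex (fun b => T (y b)) (fun b => T (e b)) (T a) ↔ w ∈ Hex y e a := by
  refine exists_congr fun b => or_congr ?_ (or_congr (pick_seg T _ _ _) (pick_seg T _ _ _))
  have h := pick_seg T 0 (e b) w
  rwa [map_zero] at h

theorem pick_cpt (p q : ℝ × ℝ) : IsCompact (segment ℝ p q) := by
  rw [segment_eq_image]
  exact isCompact_Icc.image (by fun_prop)

theorem pick_hexc (y e : Bool → ℝ × ℝ) (a : ℝ × ℝ) : IsCompact (Hex y e a) := by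
  have h : Hex y e a = ⋃ b, (segment ℝ 0 (e b) ∪ (segment ℝ (e b) (y b) ∪ segment ℝ (y b) a)) := by
    ext w
    simp only [Hex, Set.mem_ofPred_eq, Set.mem_iUnion, Set.mem_union]
  rw [h]
  exact isCompact_iUnion fun b => (pick_cpt _ _).union ((pick_cpt _ _).union (pick_cpt _ _))

theorem pick_ne (h0 : S.y 0 false = (0, 1)) {j : ℕ} (h1 : 1 ≤ j) (hj : j < k) (c : Bool)
    {β : ℝ × ℝ} {ζ : ℝ} (hz : 1 ≤ ζ) (h : ((0 : ℝ), ζ) ∈ segment ℝ (S.y j c) β)
    (hn : (0 : ℝ × ℝ) ∉ segment ℝ (S.y j c) β) : (S.y j c).1 ≠ 0 := by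
  intro hy
  obtain ⟨g, g1, -, -, g2⟩ := S.sep 0 j false c (by omega) hj (by omega)
  have g3 : 0 < g (S.y j c) := by
    rcases g2 with g2 | g2
    · exact g2.1.trans g2.2
    · exact ((g2.1.1.trans g2.1.2).trans g2.2.1).trans g2.2.2
  have e : S.y j c = (S.y j c).2 • ((0, 1) : ℝ × ℝ) := by
    ext
    · simp [hy]
    · simp
  rw [h0] at g1
  rw [e, map_smul, smul_eq_mul] at g3
  have g4 : (S.y j c).2 < 0 := by nlinarith
  refine hn ((convex_segment _ _).segment_subset (left_mem_segment ℝ _ _) h ?_)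
  have hp : 0 < ζ - (S.y j c).2 := by linarith
  refine ⟨ζ / (ζ - (S.y j c).2), -(S.y j c).2 / (ζ - (S.y j c).2), by positivity,
    div_nonneg (by linarith) hp.le, by field_simp; ring, ?_⟩
  ext
  · simp [hy]
  · simp only [Prod.snd_add, Prod.smul_snd, smul_eq_mul, Prod.snd_zero]
    field_simp
    ring

/-- the coordinates along and across `(u, v)` -/
noncomputable def pick_T (u v : ℝ) (h : u ^ 2 + v ^ 2 ≠ 0) : (ℝ × ℝ) ≃ₗ[ℝ] (ℝ × ℝ) where
  toFun p := (p.1 * v - p.2 * u, (u * p.1 + v * p.2) / (u ^ 2 + v ^ 2))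
  invFun p := (p.2 * u + p.1 * v / (u ^ 2 + v ^ 2), p.2 * v - p.1 * u / (u ^ 2 + v ^ 2))
  map_add' p q := by
    ext
    · simp only [Prod.fst_add, Prod.snd_add]; ring
    · simp only [Prod.fst_add, Prod.snd_add]; ring
  map_smul' c p := by
    ext
    · simp only [Prod.smul_fst, Prod.smul_snd, smul_eq_mul, RingHom.id_apply]; ring
    · simp only [Prod.smul_fst, Prod.smul_snd, smul_eq_mul, RingHom.id_apply]; ring
  left_inv p := by
    ext
    · simp only; field_simp; ring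
    · simp only; field_simp; ring
  right_inv p := by
    ext
    · simp only; field_simp; ring
    · simp only; field_simp; ring

/-- the reflection in the vertical axis -/
def pick_M : (ℝ × ℝ) ≃ₗ[ℝ] (ℝ × ℝ) where
  toFun p := (-p.1, p.2)
  invFun p := (-p.1, p.2)
  map_add' p q := by
    ext
    · simp only [Prod.fst_add]; ring
    · simp only [Prod.snd_add]
  map_smul' c p := by
    ext
    · simp only [Prod.smul_fst, smul_eq_mul, RingHom.id_apply]; ring
    · simp only [Prod.smul_snd, smul_eq_mul, RingHom.id_apply]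
  left_inv p := by simp
  right_inv p := by simp

theorem pick_M_apply (p : ℝ × ℝ) : pick_M p = (-p.1, p.2) := rfl

/-- Hint: the set of `s` with `(0, s)` on the hexagon is compact (preimage of a finite union of
compact segments under a closed embedding, or closed and bounded) and contains some `s ≥ 1`
(`S.enc 0 j` for `w = y 0 false`); let `ζ` be its maximum. If `(0, ζ) ∈ [0, e b]` then `e b` is on
the axis above it, so `e b = (0, ζ) ∈ [y b, e b]`. If `(y j c).1 = 0` then `S.sep 0 j false c`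
gives `(y j c).2 < 0`, so `0` is on the segment, against `S.no0`. For `β = a j` with
`(a j).1 = 0` we get `a j = (0, ζ)`, both `c` and `!c` are possible; if both first coordinates have
the same sign choose by `le_total`. -/
theorem pick (h0 : S.y 0 false = (0, 1)) {j : ℕ} (h1 : 1 ≤ j) (hj : j < k) :
    ∃ c β ζ, S.Pk j c β ζ ∧ (S.y j c).1 ≠ 0 := by
  obtain ⟨s, hs1, hs⟩ := S.enc 0 j h1 hj (0, 1) (by simp)
    (Or.inl ⟨false, Or.inr (Or.inl (by rw [h0]; exact right_mem_segment ℝ _ _))⟩)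
  have e0 : s • ((0, 1) : ℝ × ℝ) = (0, s) := by simp
  rw [e0] at hs
  have hK : IsCompact (Hex (S.y j) (S.e j) (S.a j) ∩ {w : ℝ × ℝ | w.1 = 0}) :=
    (pick_hexc _ _ _).inter_right (isClosed_eq continuous_fst continuous_const)
  obtain ⟨⟨w1, ζ⟩, ⟨hw, hw1⟩, hm⟩ := hK.exists_isMaxOn ⟨(0, s), hs, rfl⟩ continuous_snd.continuousOn
  obtain rfl : w1 = 0 := hw1
  have hmax : ∀ r : ℝ, ((0 : ℝ), r) ∈ Hex (S.y j) (S.e j) (S.a j) → r ≤ ζ := fun r hr =>
    hm (a := (0, r)) ⟨hr, rfl⟩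
  have hz : 1 ≤ ζ := hs1.trans (hmax s hs)
  have ce : ∀ b, ((0 : ℝ), ζ) ∈ segment ℝ (S.y j b) (S.e j b) →
      ∃ c β ζ, S.Pk j c β ζ ∧ (S.y j c).1 ≠ 0 := fun b h =>
    ⟨b, _, ζ, ⟨hz, h, hmax, Or.inl rfl⟩, S.pick_ne h0 h1 hj b hz h (by
      rw [segment_symm]; exact (S.no0 j hj b).1)⟩
  obtain ⟨b, h | h | h⟩ := hw
  · obtain ⟨u, v, hu, hv, huv, h⟩ := h
    have x1 : v * (S.e j b).1 = 0 := by simpa using congrArg Prod.fst h
    have x2 : v * (S.e j b).2 = ζ := by simpa using congrArg Prod.snd h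
    have v0 : v ≠ 0 := by
      rintro rfl
      linarith
    have x3 : (S.e j b).1 = 0 := (mul_eq_zero.1 x1).resolve_left v0
    have x4 : S.e j b = (0, (S.e j b).2) := Prod.ext x3 rfl
    have x5 : (S.e j b).2 ≤ ζ := hmax _ (by
      rw [← x4]; exact ⟨b, Or.inl (right_mem_segment ℝ _ _)⟩)
    have x6 : 0 ≤ (S.e j b).2 := by
      by_contra hc
      nlinarith
    have x7 : (S.e j b).2 = ζ := le_antisymm x5 (by nlinarith)
    refine ce b ?_
    rw [← x7, ← x4]
    exact right_mem_segment ℝ _ _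
  · exact ce b (by rwa [segment_symm])
  · have hb := S.pick_ne h0 h1 hj b hz h (S.no0 j hj b).2
    rcases le_total (((S.y j (!b)).2 - ζ) * |(S.y j b).1|)
      (((S.y j b).2 - ζ) * |(S.y j (!b)).1|) with hl | hl
    · exact ⟨b, _, ζ, ⟨hz, h, hmax, Or.inr ⟨rfl, fun _ _ => hl⟩⟩, hb⟩
    by_cases ha : (S.a j).1 = 0
    · obtain ⟨u, v, hu, hv, huv, h⟩ := h
      have x1 : u * (S.y j b).1 = 0 := by simpa [ha] using congrArg Prod.fst h
      obtain rfl : u = 0 := (mul_eq_zero.1 x1).resolve_right hb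
      obtain rfl : v = 1 := by linarith
      rw [zero_smul, zero_add, one_smul] at h
      have h' : ((0 : ℝ), ζ) ∈ segment ℝ (S.y j (!b)) (S.a j) := by
        rw [← h]; exact right_mem_segment ℝ _ _
      refine ⟨!b, _, ζ, ⟨hz, h', hmax, Or.inr ⟨rfl, fun _ _ => ?_⟩⟩,
        S.pick_ne h0 h1 hj _ hz h' (S.no0 j hj _).2⟩
      rw [Bool.not_not]
      exact hl
    · exact ⟨b, _, ζ, ⟨hz, h, hmax, Or.inr ⟨rfl, fun k => absurd k ha⟩⟩, hb⟩

/-- transport along a linear equivalence that keeps `|crR|` (`image_segment`) -/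
noncomputable def map (T : (ℝ × ℝ) ≃ₗ[ℝ] (ℝ × ℝ)) (hT : ∀ p q, |crR (T p) (T q)| = |crR p q|) :
    Sys k B where
  y i b := T (S.y i b)
  d i b := T (S.d i b)
  e i b := T (S.e i b)
  a i := T (S.a i)
  sep i j b c hi hj hij := by
    obtain ⟨g, g1, g2, g3, g4⟩ := S.sep i j b c hi hj hij
    have e : ∀ p, (g ∘ₗ T.symm.toLinearMap) (T p) = g p := fun p => by simp
    refine ⟨g ∘ₗ T.symm.toLinearMap, ?_⟩
    simp only [Dir, Ind, e]
    exact ⟨g1, g2, g3, g4⟩
  disj i j hi hj hij w w1 w2 := by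
    obtain ⟨w, rfl⟩ := T.surjective w
    rw [S.disj i j hi hj hij w ((pick_hex T _ _ _ _).1 w1) ((pick_hex T _ _ _ _).1 w2), map_zero]
  no0 i hi b := by
    rw [← map_zero T, pick_seg, pick_seg]
    exact S.no0 i hi b
  enc i j hij hj w w0 hw := by
    obtain ⟨w, rfl⟩ := T.surjective w
    obtain ⟨s, s1, s2⟩ := S.enc i j hij hj w (fun h => w0 (by rw [h, map_zero])) (hw.imp
      (pick_hex T _ _ _ _).1 fun ⟨b, h⟩ => ⟨b, T.injective (by rw [h, map_add])⟩)
    refine ⟨s, s1, ?_⟩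
    rw [← map_smul]
    exact (pick_hex T _ _ _ _).2 s2
  latd i j b c := by
    rw [← abs_eq_zero, hT, abs_eq_zero]
    exact S.latd i j b c
  laty i j b c := by
    rw [← abs_eq_zero, hT, abs_eq_zero]
    exact S.laty i j b c
  box i j b c hi hj := by
    rw [hT]
    exact S.box i j b c hi hj

/-- `T p = (crR p φ, ⟪φ, p⟫ / ‖φ‖²)` for `φ = y 0 false ≠ 0` (`S.sep 0 1`) -/
theorem normal (S : Sys k B) (hk : 2 ≤ k) : ∃ S' : Sys k B, S'.y 0 false = (0, 1) := by
  obtain ⟨g, g1, -⟩ := S.sep 0 1 false false (by omega) (by omega) (by omega)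
  have h : (S.y 0 false).1 ^ 2 + (S.y 0 false).2 ^ 2 ≠ 0 := fun h => by
    have h1 : (S.y 0 false).1 = 0 := by nlinarith [sq_nonneg (S.y 0 false).1, sq_nonneg (S.y 0 false).2]
    have h2 : (S.y 0 false).2 = 0 := by nlinarith [sq_nonneg (S.y 0 false).1, sq_nonneg (S.y 0 false).2]
    rw [show S.y 0 false = 0 from Prod.ext h1 h2, map_zero] at g1
    exact lt_irrefl _ g1
  refine ⟨S.map (pick_T _ _ h) fun p q => congrArg _ ?_, ?_⟩
  · simp only [crR, pick_T, LinearEquiv.coe_mk, LinearMap.coe_mk, AddHom.coe_mk]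
    field_simp
    ring
  · simp only [map, pick_T, LinearEquiv.coe_mk, LinearMap.coe_mk, AddHom.coe_mk]
    ext
    · simp only; ring
    · simp only; field_simp

/-- the mirror image -/
theorem mirror (h0 : S.y 0 false = (0, 1)) : ∃ S' : Sys k B, S'.y 0 false = (0, 1) ∧
    ∀ j c β ζ, S.Pk j c β ζ → (S.y j c).1 < 0 → ∃ β', S'.Pk j c β' ζ ∧ 0 < (S'.y j c).1 := by
  refine ⟨S.map pick_M fun p q => ?_, ?_, fun j c β ζ h hy => ⟨pick_M β, ?_, ?_⟩⟩
  · rw [← abs_neg]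
    simp only [crR, pick_M_apply]
    congr 1
    ring
  · simp only [map, h0, pick_M_apply, neg_zero]
  · have e : ∀ s : ℝ, ((0 : ℝ), s) = pick_M (0, s) := fun s => by simp [pick_M_apply]
    obtain ⟨a1, a2, a3, a4⟩ := h
    refine ⟨a1, ?_, fun s hs => a3 s ?_, a4.imp (congrArg _) fun a5 => ⟨congrArg _ a5.1, ?_⟩⟩
    · rw [e]
      exact (pick_seg _ _ _ _).2 a2
    · rw [e] at hs
      exact (pick_hex _ _ _ _ _).1 hs
    · simp only [map, pick_M_apply, neg_eq_zero, neg_mul_neg, abs_neg]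
      exact a5.2
  · simp only [map, pick_M_apply]
    linarith

end Sys
end Pool.Agent.Work.MP_37ce0f_lc.B
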