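import Pool.Agent.Work.MP_37ce0f_lc.B.Eul

namespace Pool.Agent.Work.MP_37ce0f_lc.B

variable {k : ℕ}

/-- the point at height `2 i + 1` (leaf: `2 i + 2`) on the ray of direction `(± (i + 1), 1)` -/
def spos : VC k → ℤ × ℤ
  | none => 0
  | some (i, b, t) => (2 * (i.val : ℤ) + 1 + if t then 1 else 0) •
      ((if b then (i.val : ℤ) + 1 else -((i.val : ℤ) + 1)), 1)

def sdraw (k : ℕ) : Drawing (VC k) := ⟨spos, fun _ _ => [], fun _ _ => rfl⟩

/-- the slope of the ray of `(i, b)` -/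
noncomputable def str_a (i : Fin k) (b : Bool) : ℝ :=
  if b then (i.val : ℝ) + 1 else -((i.val : ℝ) + 1)

/-- the height of the vertex `(i, b, t)` -/
noncomputable def str_h (i : Fin k) (t : Bool) : ℝ := 2 * (i.val : ℝ) + 1 + if t then 1 else 0

theorem str_hf (i : Fin k) : str_h i false = 2 * (i.val : ℝ) + 1 := by simp [str_h]

theorem str_ht (i : Fin k) : str_h i true = 2 * (i.val : ℝ) + 2 := by
  simp only [str_h, if_true]; ring

theorem str_hpos (i : Fin k) (t : Bool) : 0 < str_h i t := by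
  have : (0 : ℝ) ≤ (i.val : ℝ) := Nat.cast_nonneg _
  cases t
  · rw [str_hf]; linarith
  · rw [str_ht]; linarith

theorem str_none : toR (spos (none : VC k)) = (0, 0) := by simp [toR, spos]

theorem str_some (i : Fin k) (b t : Bool) :
    toR (spos (some (i, b, t))) = (str_a i b * str_h i t, str_h i t) := by
  cases b <;> cases t <;> simp [toR, spos, str_a, str_h] <;> ring

theorem str_a_inj {i j : Fin k} {b c : Bool} (h : str_a i b = str_a j c) : i = j ∧ b = c := by
  have hi : (0 : ℝ) ≤ (i.val : ℝ) := Nat.cast_nonneg _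
  have hj : (0 : ℝ) ≤ (j.val : ℝ) := Nat.cast_nonneg _
  cases b <;> cases c <;> simp only [str_a, if_true, Bool.false_eq_true, if_false] at h
  · exact ⟨Fin.ext (by exact_mod_cast (by linarith : (i.val : ℝ) = j.val)), rfl⟩
  · linarith
  · linarith
  · exact ⟨Fin.ext (by exact_mod_cast (by linarith : (i.val : ℝ) = j.val)), rfl⟩

theorem str_h_inj {i j : Fin k} {s t : Bool} (h : str_h i s = str_h j t) : i = j ∧ s = t := by
  cases s <;> cases t <;> simp only [str_hf, str_ht] at h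
  · exact ⟨Fin.ext (by exact_mod_cast (by linarith : (i.val : ℝ) = j.val)), rfl⟩
  · have : 2 * i.val + 1 = 2 * j.val + 2 := by exact_mod_cast h
    omega
  · have : 2 * i.val + 2 = 2 * j.val + 1 := by exact_mod_cast h
    omega
  · exact ⟨Fin.ext (by exact_mod_cast (by linarith : (i.val : ℝ) = j.val)), rfl⟩

theorem str_inj : Function.Injective (spos (k := k)) := by
  intro x y h
  have h' : toR (spos x) = toR (spos y) := by rw [h]
  rcases x with _ | ⟨i, b, s⟩ <;> rcases y with _ | ⟨j, c, t⟩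
  · rfl
  · rw [str_none, str_some] at h'
    exact absurd (Prod.ext_iff.1 h').2 (str_hpos j t).ne
  · rw [str_none, str_some] at h'
    exact absurd (Prod.ext_iff.1 h').2 (str_hpos i s).ne'
  · rw [str_some, str_some] at h'
    obtain ⟨h1, h2⟩ := Prod.ext_iff.1 h'
    obtain ⟨rfl, rfl⟩ := str_h_inj h2
    obtain ⟨-, rfl⟩ := str_a_inj (mul_right_cancel₀ (str_hpos i s).ne' h1)
    rfl

theorem str_segs (u v : VC k) : (sdraw k).segs u v = [(spos u, spos v)] := rfl

theorem str_trace {u v : VC k} {p : ℝ × ℝ} (h : p ∈ (sdraw k).trace u v) :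
    p ∈ segment ℝ (toR (spos u)) (toR (spos v)) := by
  obtain ⟨s, hs, hp⟩ := h
  rw [str_segs, List.mem_singleton] at hs
  subst hs
  exact hp

theorem str_ray {a x y : ℝ} {p : ℝ × ℝ} (hxy : x ≤ y)
    (h : p ∈ segment ℝ ((a * x, x) : ℝ × ℝ) (a * y, y)) : p.1 = a * p.2 ∧ x ≤ p.2 ∧ p.2 ≤ y := by
  obtain ⟨l, m, hl, hm, hlm, rfl⟩ := h
  have e : l = 1 - m := by linarith
  subst e
  simp only [Prod.smul_mk, Prod.mk_add_mk, smul_eq_mul]
  refine ⟨by ring, ?_, ?_⟩
  · nlinarith [mul_nonneg hm (sub_nonneg.2 hxy)]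
  · nlinarith [mul_nonneg hl (sub_nonneg.2 hxy)]

theorem str_top {x y : ℝ} {p : ℝ × ℝ} (hx : 0 ≤ x)
    (h : p ∈ segment ℝ ((-x, y) : ℝ × ℝ) (x, y)) : p.2 = y ∧ -x ≤ p.1 ∧ p.1 ≤ x := by
  obtain ⟨l, m, hl, hm, hlm, rfl⟩ := h
  have e : l = 1 - m := by linarith
  subst e
  simp only [Prod.smul_mk, Prod.mk_add_mk, smul_eq_mul]
  refine ⟨by ring, ?_, ?_⟩
  · nlinarith [mul_nonneg hm hx]
  · nlinarith [mul_nonneg hl hx]

/-- points of the edge from the root -/
def str_P0 (i : Fin k) (b : Bool) (p : ℝ × ℝ) : Prop :=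
  p.1 = str_a i b * p.2 ∧ 0 ≤ p.2 ∧ p.2 ≤ str_h i false

/-- points of the top side -/
def str_P1 (i : Fin k) (p : ℝ × ℝ) : Prop :=
  p.2 = str_h i false ∧ -(((i.val : ℝ) + 1) * str_h i false) ≤ p.1 ∧
    p.1 ≤ ((i.val : ℝ) + 1) * str_h i false

/-- points of the leaf edge -/
def str_P2 (i : Fin k) (b : Bool) (p : ℝ × ℝ) : Prop :=
  p.1 = str_a i b * p.2 ∧ str_h i false ≤ p.2 ∧ p.2 ≤ str_h i true

theorem str_s0 (i : Fin k) (b : Bool) {p : ℝ × ℝ}
    (h : p ∈ segment ℝ (toR (spos (none : VC k))) (toR (spos (some (i, b, false))))) :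
    str_P0 i b p := by
  rw [str_none, str_some] at h
  refine str_ray (str_hpos i false).le ?_
  rwa [mul_zero]

theorem str_s1 (i : Fin k) {p : ℝ × ℝ}
    (h : p ∈ segment ℝ (toR (spos (some (i, false, false)))) (toR (spos (some (i, true, false))))) :
    str_P1 i p := by
  rw [str_some, str_some] at h
  refine str_top (mul_nonneg (by positivity) (str_hpos i false).le) ?_
  simpa only [str_a, if_true, Bool.false_eq_true, if_false, neg_mul] using h

theorem str_s2 (i : Fin k) (b : Bool) {p : ℝ × ℝ}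
    (h : p ∈ segment ℝ (toR (spos (some (i, b, false)))) (toR (spos (some (i, b, true))))) :
    str_P2 i b p := by
  rw [str_some, str_some] at h
  exact str_ray (by rw [str_hf, str_ht]; linarith) h

theorem str_edge {u v : VC k} (h : (C k).Adj u v) : ∃ i b,
    (s(u, v) = s(none, some (i, b, false)) ∧ ∀ p ∈ (sdraw k).trace u v, str_P0 i b p) ∨
    (s(u, v) = s(some (i, false, false), some (i, true, false)) ∧
      ∀ p ∈ (sdraw k).trace u v, str_P1 i p) ∨
    (s(u, v) = s(some (i, b, false), some (i, b, true)) ∧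
      ∀ p ∈ (sdraw k).trace u v, str_P2 i b p) := by
  rcases C_adj.1 h with ⟨i, b, rfl, rfl⟩ | ⟨i, b, rfl, rfl⟩ | ⟨i, b, rfl, rfl⟩ | ⟨i, b, t, rfl, rfl⟩
  · exact ⟨i, b, Or.inl ⟨rfl, fun p hp => str_s0 i b (str_trace hp)⟩⟩
  · exact ⟨i, b, Or.inl ⟨Sym2.eq_swap, fun p hp =>
      str_s0 i b (by rw [segment_symm]; exact str_trace hp)⟩⟩
  · cases b
    · exact ⟨i, false, Or.inr (Or.inl ⟨rfl, fun p hp => str_s1 i (str_trace hp)⟩)⟩
    · exact ⟨i, false, Or.inr (Or.inl ⟨Sym2.eq_swap, fun p hp =>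
        str_s1 i (by rw [segment_symm]; exact str_trace hp)⟩)⟩
  · cases t
    · exact ⟨i, b, Or.inr (Or.inr ⟨rfl, fun p hp => str_s2 i b (str_trace hp)⟩)⟩
    · exact ⟨i, b, Or.inr (Or.inr ⟨Sym2.eq_swap, fun p hp =>
        str_s2 i b (by rw [segment_symm]; exact str_trace hp)⟩)⟩

theorem str_v0 {i : Fin k} {b : Bool} {w : VC k} (h : str_P0 i b (toR (spos w))) :
    w = none ∨ w = some (i, b, false) := by
  rcases w with _ | ⟨j, c, t⟩
  · exact Or.inl rfl
  · rw [str_some] at h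
    obtain ⟨h1, -, h3⟩ := h
    obtain ⟨rfl, rfl⟩ := str_a_inj (mul_right_cancel₀ (str_hpos j t).ne' h1)
    cases t
    · exact Or.inr rfl
    · simp only [str_hf, str_ht] at h3
      linarith

theorem str_v1 {i : Fin k} {w : VC k} (h : str_P1 i (toR (spos w))) :
    w = some (i, false, false) ∨ w = some (i, true, false) := by
  rcases w with _ | ⟨j, c, t⟩
  · rw [str_none] at h
    exact absurd h.1 (str_hpos i false).ne
  · rw [str_some] at h
    obtain ⟨rfl, rfl⟩ := str_h_inj h.1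
    cases c
    · exact Or.inl rfl
    · exact Or.inr rfl

theorem str_v2 {i : Fin k} {b : Bool} {w : VC k} (h : str_P2 i b (toR (spos w))) :
    w = some (i, b, false) ∨ w = some (i, b, true) := by
  rcases w with _ | ⟨j, c, t⟩
  · rw [str_none] at h
    exact absurd h.2.1 (not_le.2 (str_hpos i false))
  · rw [str_some] at h
    obtain ⟨rfl, rfl⟩ := str_a_inj (mul_right_cancel₀ (str_hpos j t).ne' h.1)
    cases t
    · exact Or.inl rfl
    · exact Or.inr rfl

theorem str_vert {i : Fin k} {b : Bool} {p : ℝ × ℝ} (h1 : p.1 = str_a i b * p.2)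
    (h2 : p.2 = str_h i false) : ∃ w : VC k, p = toR (spos w) :=
  ⟨some (i, b, false), by rw [str_some, ← h2, ← h1]⟩

theorem str_same {i j : Fin k} {b c : Bool} {p : ℝ × ℝ} (h1 : p.1 = str_a i b * p.2)
    (h2 : p.1 = str_a j c * p.2) (hp : p.2 ≠ 0) : i = j ∧ b = c :=
  str_a_inj (mul_right_cancel₀ hp (h1.symm.trans h2))

theorem str_01 {i j : Fin k} {b : Bool} {p : ℝ × ℝ} (h : str_P0 i b p) (g : str_P1 j p) :
    ∃ w : VC k, p = toR (spos w) := by
  obtain ⟨h1, -, h3⟩ := h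
  obtain ⟨g1, g2, g3⟩ := g
  have hp := str_hpos j false
  have hij : (i.val : ℝ) ≤ j.val := by
    rw [h1, g1] at g2 g3
    cases b <;> simp only [str_a, if_true, Bool.false_eq_true, if_false] at g2 g3
    · rw [neg_mul, neg_le_neg_iff] at g2
      linarith [le_of_mul_le_mul_right g2 hp]
    · linarith [le_of_mul_le_mul_right g3 hp]
  refine str_vert h1 (le_antisymm h3 ?_)
  rw [g1, str_hf, str_hf]
  linarith

theorem str_02 {i j : Fin k} {b c : Bool} {p : ℝ × ℝ} (h : str_P0 i b p) (g : str_P2 j c p) :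
    ∃ w : VC k, p = toR (spos w) := by
  obtain ⟨rfl, rfl⟩ := str_same h.1 g.1 ((str_hpos j false).trans_le g.2.1).ne'
  exact str_vert h.1 (le_antisymm h.2.2 g.2.1)

theorem str_12 {i j : Fin k} {c : Bool} {p : ℝ × ℝ} (h : str_P1 i p) (g : str_P2 j c p) :
    ∃ w : VC k, p = toR (spos w) := by
  obtain ⟨g1, g2, g3⟩ := g
  have h1 := h.1
  rw [h1] at g2 g3
  simp only [str_hf, str_ht] at g2 g3
  have a1 : 2 * j.val + 1 ≤ 2 * i.val + 1 := by exact_mod_cast g2
  have a2 : 2 * i.val + 1 ≤ 2 * j.val + 2 := by exact_mod_cast g3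
  have e : i = j := Fin.ext (by omega)
  subst e
  exact str_vert g1 h1

/-- Radial edges lie on rays of different directions (two edges on one ray meet in the triangle
vertex only); the top side of layer `i` has height `2 i + 1` and `|x| ≤ (i + 1) (2 i + 1)`; radial
edges of lower layers end at height `≤ 2 i`, those of higher layers are outside this range. -/
theorem s_planar : Planar (C k) (sdraw k) := by
  refine ⟨str_inj, fun u v h => ⟨?_, ?_⟩, fun u v w h hw => ?_, fun u v x y h g hne p hp hq => ?_⟩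
  · intro s hs
    rw [str_segs, List.mem_singleton] at hs
    subst hs
    exact fun e => h.ne (str_inj e)
  · rw [str_segs]
    exact List.pairwise_singleton _ _
  · rw [← Sym2.mem_iff]
    obtain ⟨i, b, ⟨e, H⟩ | ⟨e, H⟩ | ⟨e, H⟩⟩ := str_edge h <;> rw [e, Sym2.mem_iff]
    · exact str_v0 (H _ hw)
    · exact str_v1 (H _ hw)
    · exact str_v2 (H _ hw)
  · change ∃ w : VC k, p = toR (spos w)
    obtain ⟨i, b, ⟨e, H⟩ | ⟨e, H⟩ | ⟨e, H⟩⟩ := str_edge h <;>
      obtain ⟨j, c, ⟨f, G⟩ | ⟨f, G⟩ | ⟨f, G⟩⟩ := str_edge g <;>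
      have H' := H p hp <;> have G' := G p hq
    · by_cases h0 : p.2 = 0
      · refine ⟨none, ?_⟩
        rw [str_none]
        exact Prod.ext (by rw [H'.1, h0, mul_zero]) h0
      · obtain ⟨rfl, rfl⟩ := str_same H'.1 G'.1 h0
        exact absurd (e.trans f.symm) hne
    · exact str_01 H' G'
    · exact str_02 H' G'
    · exact str_01 G' H'
    · obtain ⟨rfl, -⟩ := str_h_inj (H'.1.symm.trans G'.1)
      exact absurd (e.trans f.symm) hne
    · exact str_12 H' G'
    · exact str_02 G' H'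
    · exact str_12 G' H'
    · obtain ⟨rfl, rfl⟩ := str_same H'.1 G'.1 ((str_hpos i false).trans_le H'.2.1).ne'
      exact absurd (e.trans f.symm) hne

end Pool.Agent.Work.MP_37ce0f_lc.B
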