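import Pool.Agent.Work.MP_37ce0f_lc.B.Str

namespace Pool.Agent.Work.MP_37ce0f_lc.B

variable {k : ℕ}

/-- slope of a ray -/
def str2_m (i : Fin k) (b : Bool) : ℤ := if b then (i.val : ℤ) + 1 else -((i.val : ℤ) + 1)

/-- height of a vertex -/
def str2_h (i : Fin k) (t : Bool) : ℤ := 2 * (i.val : ℤ) + 1 + if t then 1 else 0

theorem str2_pos (i : Fin k) (b t : Bool) :
    spos (some (i, b, t)) = (str2_h i t * str2_m i b, str2_h i t) := by
  simp [spos, str2_h, str2_m]

theorem str2_none : spos (none : VC k) = (0, 0) := rfl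

theorem str2_hf (i : Fin k) : str2_h i false = 2 * (i.val : ℤ) + 1 := by simp [str2_h]

theorem str2_ht (i : Fin k) : str2_h i true = 2 * (i.val : ℤ) + 2 := by
  simp only [str2_h, if_true]; ring

theorem str2_mf (i : Fin k) : str2_m i false = -((i.val : ℤ) + 1) := by simp [str2_m]

theorem str2_mt (i : Fin k) : str2_m i true = (i.val : ℤ) + 1 := by simp [str2_m]

theorem str2_hpos (i : Fin k) (t : Bool) : 0 < str2_h i t := by
  cases t
  · rw [str2_hf]; omega
  · rw [str2_ht]; omega

theorem str2_segs (u v : VC k) : (sdraw k).segs u v = [(spos u, spos v)] := rfl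

theorem str2_dir (u v : VC k) : (sdraw k).dir u v = spos v - spos u := rfl

/-- an edge that increases the scalar product with `d` -/
def str2_R (d : ℝ × ℝ) (x y : VC k) : Prop :=
  (C k).Adj x y ∧
    0 < d.1 * (((spos y).1 : ℝ) - (spos x).1) + d.2 * (((spos y).2 : ℝ) - (spos x).2)

theorem str2_walk {d : ℝ × ℝ} {u v : VC k} (h : Relation.ReflTransGen (str2_R d) u v) :
    ∃ p : (C k).Walk u v, p.IsPath ∧ ∃ d : ℝ × ℝ, ∀ e ∈ p.darts,
      ∀ s ∈ (sdraw k).segs e.fst e.snd,
        0 < d.1 * ((s.2.1 : ℝ) - s.1.1) + d.2 * ((s.2.2 : ℝ) - s.1.2) := by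
  have key : ∃ p : (C k).Walk u v, ∀ e ∈ p.darts, str2_R d e.fst e.snd := by
    induction h using Relation.ReflTransGen.head_induction_on with
    | refl => exact ⟨.nil, by simp⟩
    | head h1 _ ih =>
      obtain ⟨p, hp⟩ := ih
      refine ⟨.cons h1.1 p, fun e he => ?_⟩
      rw [SimpleGraph.Walk.darts_cons, List.mem_cons] at he
      rcases he with rfl | he
      · exact h1
      · exact hp e he
  obtain ⟨p, hp⟩ := key
  refine ⟨p.bypass, p.bypass_isPath, d, fun e he s hs => ?_⟩
  rw [str2_segs, List.mem_singleton] at hs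
  subst hs
  exact (hp e (p.darts_bypass_subset_darts he)).2

theorem str2_u1 {d : ℝ × ℝ} {i : Fin k} {b : Bool} (h : 0 < d.1 * str2_m i b + d.2) :
    str2_R d none (some (i, b, false)) := by
  refine ⟨C_adj.2 (Or.inl ⟨i, b, rfl, rfl⟩), ?_⟩
  have h1 : (0 : ℝ) < str2_h i false := by exact_mod_cast str2_hpos i false
  rw [str2_pos, str2_none]
  push_cast
  nlinarith [mul_pos h1 h]

theorem str2_u2 {d : ℝ × ℝ} {i : Fin k} {b : Bool} (h : 0 < d.1 * str2_m i b + d.2) :
    str2_R d (some (i, b, false)) (some (i, b, true)) := by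
  refine ⟨C_adj.2 (Or.inr (Or.inr (Or.inr ⟨i, b, false, rfl, rfl⟩))), ?_⟩
  rw [str2_pos, str2_pos, str2_hf, str2_ht]
  push_cast
  linarith

theorem str2_d1 {d : ℝ × ℝ} {i : Fin k} {b : Bool} (h : d.1 * str2_m i b + d.2 < 0) :
    str2_R d (some (i, b, false)) none := by
  refine ⟨C_adj.2 (Or.inr (Or.inl ⟨i, b, rfl, rfl⟩)), ?_⟩
  have h1 : (0 : ℝ) < str2_h i false := by exact_mod_cast str2_hpos i false
  rw [str2_pos, str2_none]
  push_cast
  nlinarith [mul_pos h1 (neg_pos.2 h)]

theorem str2_d2 {d : ℝ × ℝ} {i : Fin k} {b : Bool} (h : d.1 * str2_m i b + d.2 < 0) :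
    str2_R d (some (i, b, true)) (some (i, b, false)) := by
  refine ⟨C_adj.2 (Or.inr (Or.inr (Or.inr ⟨i, b, true, rfl, rfl⟩))), ?_⟩
  rw [str2_pos, str2_pos, str2_hf, str2_ht]
  push_cast
  linarith

theorem str2_up {d : ℝ × ℝ} {i : Fin k} {b : Bool} (h : 0 < d.1 * str2_m i b + d.2) (t : Bool) :
    Relation.ReflTransGen (str2_R d) none (some (i, b, t)) := by
  cases t
  · exact .single (str2_u1 h)
  · exact (Relation.ReflTransGen.single (str2_u1 h)).tail (str2_u2 h)

theorem str2_down {d : ℝ × ℝ} {i : Fin k} {b : Bool} (h : d.1 * str2_m i b + d.2 < 0) (t : Bool) :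
    Relation.ReflTransGen (str2_R d) (some (i, b, t)) none := by
  cases t
  · exact .single (str2_d1 h)
  · exact (Relation.ReflTransGen.single (str2_d2 h)).tail (str2_d1 h)

theorem str2_minj {i j : Fin k} {b c : Bool} (h : str2_m i b = str2_m j c) : i = j ∧ b = c := by
  cases b <;> cases c <;> simp only [str2_mf, str2_mt] at h
  · exact ⟨Fin.ext (by omega), rfl⟩
  · omega
  · omega
  · exact ⟨Fin.ext (by omega), rfl⟩

/-- down one ray to the root and up the other ray; two different directions `(p, 1)`, `(q, 1)`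
are separated by `x - (p + q) / 2 * y` up to sign; on one ray use `± y` -/
theorem s_mono : IsMono (C k) (sdraw k) := by
  intro u v
  rcases u with _ | ⟨i, b, t⟩ <;> rcases v with _ | ⟨j, c, s⟩
  · exact str2_walk (d := 0) .refl
  · exact str2_walk (d := (0, 1)) (str2_up (by simp) s)
  · exact str2_walk (d := (0, -1)) (str2_down (by simp) t)
  · by_cases h : str2_m i b = str2_m j c
    · obtain ⟨rfl, rfl⟩ := str2_minj h
      cases t <;> cases s
      · exact str2_walk (d := 0) .refl
      · exact str2_walk (d := (0, 1)) (.single (str2_u2 (by simp)))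
      · exact str2_walk (d := (0, -1)) (.single (str2_d2 (by simp)))
      · exact str2_walk (d := 0) .refl
    · have h1 : (str2_m j c : ℝ) - str2_m i b ≠ 0 := by
        rw [sub_ne_zero]
        exact fun e => h (by exact_mod_cast e.symm)
      have h2 := mul_self_pos.2 h1
      refine str2_walk (d := ((str2_m j c : ℝ) - str2_m i b,
        -(((str2_m j c : ℝ) - str2_m i b) * ((str2_m j c + str2_m i b) / 2))))
        ((str2_down ?_ t).trans (str2_up ?_ s))
      · nlinarith
      · nlinarith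

theorem s_box : InBox (C k) (sdraw k) (4 * k ^ 2) (2 * k) := by
  refine ⟨-(2 * (k : ℤ) ^ 2), 0, fun p hp => ?_⟩
  rcases hp with ⟨v, rfl⟩ | ⟨u, v, _, hp⟩
  · have k0 : (0 : ℤ) ≤ k := Int.natCast_nonneg k
    change -(2 * (k : ℤ) ^ 2) ≤ (spos v).1 ∧ (spos v).1 ≤ _ ∧ 0 ≤ (spos v).2 ∧ (spos v).2 ≤ _
    rcases v with _ | ⟨i, b, t⟩
    · rw [str2_none]
      push_cast
      refine ⟨?_, ?_, trivial, ?_⟩ <;> nlinarith
    · have h0 := str2_hpos i t
      have hi : (i.val : ℤ) + 1 ≤ k := by exact_mod_cast i.isLt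
      have h1 : str2_h i t ≤ 2 * k := by
        cases t
        · rw [str2_hf]; omega
        · rw [str2_ht]; omega
      have i0 : (0 : ℤ) ≤ i.val := Int.natCast_nonneg _
      have h2 : str2_h i t * ((i.val : ℤ) + 1) ≤ 2 * k * k :=
        mul_le_mul h1 hi (by omega) (by omega)
      have h3 : 0 ≤ str2_h i t * ((i.val : ℤ) + 1) := by positivity
      rw [str2_pos]
      push_cast
      cases b
      · rw [str2_mf]
        refine ⟨?_, ?_, h0.le, by omega⟩ <;> nlinarith
      · rw [str2_mt]
        refine ⟨?_, ?_, h0.le, by omega⟩ <;> nlinarith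
  · exact absurd hp List.not_mem_nil

theorem str2_cr {i j : Fin k} {b c : Bool} (h : str2_m i b < str2_m j c) :
    cr ((sdraw k).dir none (some (i, b, false))) ((sdraw k).dir none (some (j, c, false))) < 0 := by
  rw [str2_dir, str2_dir, str2_pos, str2_pos, str2_none]
  have := mul_pos (mul_pos (str2_hpos i false) (str2_hpos j false)) (sub_pos.2 h)
  simp only [cr, Prod.fst_sub, Prod.snd_sub, sub_zero]
  linarith

theorem str2_root {i j : Fin k} {b c : Bool} (h1 : (some (j, c, false) : VC k) ≠ some (i, b, false))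
    (h2 : (some (j, c, false) : VC k) ≠ nxt none (some (i, b, false))) :
    Cw ((sdraw k).dir none (some (i, b, false))) ((sdraw k).dir none (nxt none (some (i, b, false))))
      ((sdraw k).dir none (some (j, c, false))) := by
  have hi := i.isLt
  have hj := j.isLt
  have key : ∀ (i' : Fin k) (b' : Bool), nxt none (some (i, b, false)) = some (i', b', false) →
      ((str2_m i b < str2_m i' b' ∧ (str2_m j c ≠ str2_m i b → str2_m j c ≠ str2_m i' b' →
        str2_m i' b' < str2_m j c ∨ str2_m j c < str2_m i b)) ∨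
        (str2_m i' b' ≤ str2_m j c ∧ str2_m j c ≤ str2_m i b)) →
      Cw ((sdraw k).dir none (some (i, b, false)))
        ((sdraw k).dir none (nxt none (some (i, b, false))))
        ((sdraw k).dir none (some (j, c, false))) := by
    intro i' b' e h
    rw [e] at h2 ⊢
    have n1 : str2_m j c ≠ str2_m i b := fun e => by
      obtain ⟨rfl, rfl⟩ := str2_minj e
      exact h1 rfl
    have n2 : str2_m j c ≠ str2_m i' b' := fun e => by
      obtain ⟨rfl, rfl⟩ := str2_minj e
      exact h2 rfl
    rcases h with ⟨a1, a2⟩ | ⟨a1, a2⟩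
    · rcases a2 n1 n2 with a | a
      · exact Or.inl ⟨str2_cr a1, str2_cr a⟩
      · exact Or.inr (Or.inr ⟨str2_cr a, str2_cr a1⟩)
    · exact Or.inr (Or.inl ⟨str2_cr (lt_of_le_of_ne a1 n2.symm), str2_cr (lt_of_le_of_ne a2 n1)⟩)
  cases b
  · by_cases h : i.val = 0
    · refine key i true (by simp [nxt, h]) (Or.inl ?_)
      cases c <;> simp only [str2_mf, str2_mt] <;> omega
    · refine key ⟨i.val - 1, by omega⟩ false (by simp [nxt, h]) (Or.inl ?_)
      cases c <;> simp only [str2_mf, str2_mt] <;> omega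
  · by_cases h : i.val + 1 < k
    · refine key ⟨i.val + 1, h⟩ true (by simp [nxt, h]) (Or.inl ?_)
      cases c <;> simp only [str2_mf, str2_mt] <;> omega
    · refine key i false (by simp [nxt, h]) (Or.inr ?_)
      cases c <;> simp only [str2_mf, str2_mt] <;> omega

theorem str2_rot {a b c : ℤ × ℤ} (h : Cw a b c) : Cw b c a := by
  unfold Cw at h ⊢
  tauto

theorem str2_tf (i : Fin k) :
    Cw ((sdraw k).dir (some (i, false, false)) none)
      ((sdraw k).dir (some (i, false, false)) (some (i, false, true)))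
      ((sdraw k).dir (some (i, false, false)) (some (i, true, false))) := by
  have i0 : (0 : ℤ) ≤ i.val := Int.natCast_nonneg _
  refine Or.inr (Or.inl ?_)
  simp only [str2_dir, str2_pos, str2_none, str2_hf, str2_ht, str2_mf, str2_mt, cr, Prod.fst_sub,
    Prod.snd_sub]
  generalize (i.val : ℤ) = n at i0
  constructor <;> nlinarith [mul_nonneg i0 i0, mul_nonneg i0 (mul_nonneg i0 i0)]

theorem str2_tt (i : Fin k) :
    Cw ((sdraw k).dir (some (i, true, false)) none)
      ((sdraw k).dir (some (i, true, false)) (some (i, false, false)))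
      ((sdraw k).dir (some (i, true, false)) (some (i, true, true))) := by
  have i0 : (0 : ℤ) ≤ i.val := Int.natCast_nonneg _
  refine Or.inl ?_
  simp only [str2_dir, str2_pos, str2_none, str2_hf, str2_ht, str2_mf, str2_mt, cr, Prod.fst_sub,
    Prod.snd_sub]
  generalize (i.val : ℤ) = n at i0
  constructor <;> nlinarith [mul_nonneg i0 i0, mul_nonneg i0 (mul_nonneg i0 i0)]

theorem str2_nb0 {y : VC k} (h : (C k).Adj none y) : ∃ i b, y = some (i, b, false) := by
  rcases C_adj.1 h with ⟨i, b, _, e⟩ | ⟨i, b, e, _⟩ | ⟨i, b, e, _⟩ | ⟨i, b, t, e, _⟩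
  · exact ⟨i, b, e⟩
  all_goals cases e

theorem str2_nb1 {i : Fin k} {b : Bool} {y : VC k} (h : (C k).Adj (some (i, b, false)) y) :
    y = none ∨ y = some (i, !b, false) ∨ y = some (i, b, true) := by
  rcases C_adj.1 h with ⟨i, b, e, _⟩ | ⟨i, b, _, e⟩ | ⟨i, b, e, e'⟩ | ⟨i, b, t, e, e'⟩
  · cases e
  · exact Or.inl e
  · cases e
    exact Or.inr (Or.inl e')
  · cases e
    exact Or.inr (Or.inr e')

theorem str2_nb2 {i : Fin k} {b : Bool} {y : VC k} (h : (C k).Adj (some (i, b, true)) y) :
    y = some (i, b, false) := by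
  rcases C_adj.1 h with ⟨i, b, e, _⟩ | ⟨i, b, e, _⟩ | ⟨i, b, e, e'⟩ | ⟨i, b, t, e, e'⟩
  · cases e
  · cases e
  · cases e
  · cases e
    exact e'

theorem str2_cw {x y z : VC k} (hy : (C k).Adj x y) (hz : (C k).Adj x z) (h1 : z ≠ y)
    (h2 : z ≠ nxt x y) :
    Cw ((sdraw k).dir x y) ((sdraw k).dir x (nxt x y)) ((sdraw k).dir x z) := by
  rcases x with _ | ⟨i, b, t⟩
  · obtain ⟨i, b, rfl⟩ := str2_nb0 hy
    obtain ⟨j, c, rfl⟩ := str2_nb0 hz
    exact str2_root h1 h2
  · cases t
    · cases b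
      · rcases str2_nb1 hy with rfl | rfl | rfl <;> rcases str2_nb1 hz with rfl | rfl | rfl <;>
          first
          | exact absurd rfl h1
          | exact absurd rfl h2
          | exact str2_tf i
          | exact str2_rot (str2_tf i)
          | exact str2_rot (str2_rot (str2_tf i))
      · rcases str2_nb1 hy with rfl | rfl | rfl <;> rcases str2_nb1 hz with rfl | rfl | rfl <;>
          first
          | exact absurd rfl h1
          | exact absurd rfl h2
          | exact str2_tt i
          | exact str2_rot (str2_tt i)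
          | exact str2_rot (str2_rot (str2_tt i))
    · exact absurd ((str2_nb2 hz).trans (str2_nb2 hy).symm) h1

theorem str2_y (v : VC k) : (0 : ℝ) ≤ (toR (spos v)).2 := by
  rcases v with _ | ⟨i, b, t⟩
  · simp [toR, str2_none]
  · rw [str2_pos]
    exact Int.cast_nonneg (str2_hpos i t).le

/-- `r = (0, -1)`, `γ t = (0, -t)` -/
theorem s_pres (hk : 0 < k) : Preserves (emb k hk) (sdraw k) := by
  refine ⟨fun d e h0 h1 h2 => ?_, (0, -1), fun t => (0, -t), 1, one_pos, by fun_prop,
    fun t _ _ => ?_, fun t ht x y _ h => ?_, fun R => ⟨|R| + 1, by positivity, ?_⟩,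
    fun e h0 h1 => ?_⟩
  · refine str2_cw d.adj (h0 ▸ e.adj) (fun h => h1 ?_) (fun h => h2 ?_)
    · exact SimpleGraph.Dart.ext _ _ (Prod.ext h0 h)
    · exact SimpleGraph.Dart.ext _ _ (Prod.ext h0 h)
  · change ((0 : ℝ), -t) = toR (0, 0) + t • toR (0, -1)
    simp [toR]
  · obtain ⟨s, hs, a, b, ha, hb, _, e⟩ := h
    rw [str2_segs, List.mem_singleton] at hs
    subst hs
    have e2 := congrArg Prod.snd e
    simp only [Prod.snd_add, Prod.smul_snd, smul_eq_mul] at e2
    have := add_nonneg (mul_nonneg ha (str2_y x)) (mul_nonneg hb (str2_y y))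
    linarith
  · refine le_trans ?_ (norm_snd_le ((0 : ℝ), -(|R| + 1)))
    rw [norm_neg, Real.norm_eq_abs]
    exact ((le_abs_self R).trans (by linarith)).trans (le_abs_self _)
  · have h0' : e.fst = none := h0
    obtain ⟨j, c, hj⟩ := str2_nb0 (h0' ▸ e.adj)
    rw [h0', hj]
    have n1 : str2_m j c ≠ str2_m (⟨k - 1, by omega⟩ : Fin k) false := fun h => by
      obtain ⟨rfl, rfl⟩ := str2_minj h
      exact h1 (SimpleGraph.Dart.ext _ _ (Prod.ext h0 hj))
    have := j.isLt
    refine Or.inl ⟨?_, str2_cr (i := ⟨k - 1, by omega⟩) (b := false)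
      (lt_of_le_of_ne ?_ n1.symm)⟩
    · change cr (0, -1) ((sdraw k).dir none (some (⟨k - 1, by omega⟩, false, false))) < 0
      rw [str2_dir, str2_pos, str2_none, str2_mf]
      have h3 := mul_pos (str2_hpos (⟨k - 1, by omega⟩ : Fin k) false)
        (show (0 : ℤ) < ((k - 1 : ℕ) : ℤ) + 1 by omega)
      simp only [cr, Prod.fst_sub, Prod.snd_sub]
      linarith
    · cases c <;> simp only [str2_mf, str2_mt] <;> omega

end Pool.Agent.Work.MP_37ce0f_lc.B
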